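import Mathlib

/-! # SOLVP-Cyc: a vector and its first two images under an operator of odd prime order

PROOF. From `hdep` there is `p ∈ ℚ[X]`, `p ≠ 0`, `natDegree p ≤ 2`, with `aeval T p w = 0` (`p = C c0 + C c1 X + C c2 X ^ 2`,
`Fintype.linearIndependent_iff` / `not_linearIndependent_iff`). `Φ := cyclotomic q ℚ` is irreducible
(`Polynomial.cyclotomic.irreducible_rat`) of degree `q - 1`, and `X ^ q - 1 = (X - 1) Φ`
(`Polynomial.cyclotomic_prime_mul_X_sub_one`). Either `Φ ∣ p` or `IsCoprime Φ p`. If coprime, `u Φ + v p = 1`, so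
`w = aeval T u (aeval T Φ w)` and `(T - 1) w = aeval T u ((T ^ q - 1) w) = 0`, contradiction to `hne`. If `Φ ∣ p` then `q - 1 ≤ 2`, so
`q = 3`, `Φ = X ^ 2 + X + 1` (`Polynomial.cyclotomic_three`) and `p = C k * Φ` with `k ≠ 0`, so `aeval T Φ w = 0`. -/

set_option autoImplicit false

namespace Pool.Agent.Lib.MP_7ab245_nt.Solv

open Polynomial in
private lemma cyc_poly {W : Type*} [AddCommGroup W] [Module ℚ W] (T : W →ₗ[ℚ] W) (w : W)
    (hdep : ¬ LinearIndependent ℚ ![w, T w, T (T w)]) :
    ∃ p : ℚ[X], p ≠ 0 ∧ p.natDegree ≤ 2 ∧ aeval T p w = 0 := by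
  obtain ⟨g, hg, i, hi⟩ := Fintype.not_linearIndependent_iff.mp hdep
  refine ⟨C (g 0) + C (g 1) * X + C (g 2) * X ^ 2, ?_, ?_, ?_⟩
  · intro h
    have h0 : g 0 = 0 := by
      have := congrArg (fun p => coeff p 0) h
      simpa [coeff_X] using this
    have h1 : g 1 = 0 := by
      have := congrArg (fun p => coeff p 1) h
      simpa [coeff_X, coeff_C, coeff_X_pow] using this
    have h2 : g 2 = 0 := by
      have := congrArg (fun p => coeff p 2) h
      simpa [coeff_X, coeff_C, coeff_X_pow] using this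
    fin_cases i
    · exact hi h0
    · exact hi h1
    · exact hi h2
  · compute_degree
  · have h : ∑ i, g i • (![w, T w, T (T w)] : Fin 3 → W) i =
        g 0 • w + g 1 • T w + g 2 • T (T w) := by
      rw [Fin.sum_univ_three]
      rfl
    rw [h] at hg
    simp only [map_add, map_mul, aeval_C, aeval_X, LinearMap.add_apply,
      Module.End.mul_apply, Module.algebraMap_end_apply, pow_two]
    exact hg

open Polynomial in
theorem cyc_dep {W : Type*} [AddCommGroup W] [Module ℚ W] (T : W →ₗ[ℚ] W) (w : W) (q : ℕ)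
    (hq : q.Prime) (hq2 : q ≠ 2) (hT : (T ^ q) w = w) (hne : T w ≠ w)
    (hdep : ¬ LinearIndependent ℚ ![w, T w, T (T w)]) : q = 3 ∧ w + T w + T (T w) = 0 := by
  obtain ⟨p, hp0, hdeg, hpw⟩ := cyc_poly T w hdep
  have hirr : Irreducible (cyclotomic q ℚ) := cyclotomic.irreducible_rat hq.pos
  have hprod : cyclotomic q ℚ * (X - 1) = X ^ q - 1 := by
    have := Fact.mk hq
    exact cyclotomic_prime_mul_X_sub_one ℚ q
  by_cases h : cyclotomic q ℚ ∣ p
  · have hle : (cyclotomic q ℚ).natDegree ≤ 2 := (natDegree_le_of_dvd h hp0).trans hdeg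
    rw [natDegree_cyclotomic, Nat.totient_prime hq] at hle
    have h3 : q = 3 := by
      have := hq.two_le
      omega
    refine ⟨h3, ?_⟩
    subst h3
    obtain ⟨k, hk⟩ := h
    have hk0 : k ≠ 0 := by
      rintro rfl
      rw [mul_zero] at hk
      exact hp0 hk
    have hkd : k.natDegree = 0 := by
      have h4 : p.natDegree = (cyclotomic 3 ℚ).natDegree + k.natDegree := by
        rw [hk, natDegree_mul (cyclotomic_ne_zero 3 ℚ) hk0]
      rw [natDegree_cyclotomic, Nat.totient_prime hq] at h4
      omega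
    obtain ⟨c, hc⟩ : ∃ c : ℚ, k = C c := ⟨k.coeff 0, eq_C_of_natDegree_eq_zero hkd⟩
    have hc0 : c ≠ 0 := by
      rintro rfl
      rw [map_zero] at hc
      exact hk0 hc
    have h5 : aeval T p w = c • (aeval T (cyclotomic 3 ℚ) w) := by
      rw [hk, hc, mul_comm, map_mul, aeval_C, Module.End.mul_apply, Module.algebraMap_end_apply]
    rw [hpw] at h5
    have h6 : aeval T (cyclotomic 3 ℚ) w = 0 := by
      rcases smul_eq_zero.mp h5.symm with h7 | h7
      · exact absurd h7 hc0
      · exact h7
    rw [cyclotomic_three] at h6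
    simp only [map_add, aeval_X, map_one, LinearMap.add_apply, Module.End.one_apply,
      pow_two, map_mul, Module.End.mul_apply] at h6
    rw [← h6]
    abel
  · exfalso
    have hcop : IsCoprime (cyclotomic q ℚ) p := (hirr.coprime_iff_not_dvd).mpr h
    obtain ⟨u, v, huv⟩ := hcop
    have h1 : w = aeval T u (aeval T (cyclotomic q ℚ) w) := by
      have h2 : aeval T (u * cyclotomic q ℚ + v * p) w = w := by
        rw [huv, map_one, Module.End.one_apply]
      rw [map_add, LinearMap.add_apply, map_mul, map_mul, Module.End.mul_apply,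
        Module.End.mul_apply, hpw, map_zero, add_zero] at h2
      exact h2.symm
    have h3 : T w - w = aeval T (X - 1 : ℚ[X]) w := by
      simp
    have h4 : aeval T (X - 1 : ℚ[X]) w = aeval T (u * (cyclotomic q ℚ * (X - 1))) w := by
      conv_lhs => rw [h1]
      rw [← Module.End.mul_apply, ← Module.End.mul_apply, ← map_mul, ← map_mul]
      congr 2
      ring
    rw [hprod, map_mul, Module.End.mul_apply] at h4
    have h5 : aeval T (X ^ q - 1 : ℚ[X]) w = 0 := by
      simp [hT]
    rw [h5, map_zero] at h4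
    rw [h4] at h3
    exact hne (sub_eq_zero.mp h3)

end Pool.Agent.Lib.MP_7ab245_nt.Solv
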