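import Mathlib

/-! # SOLVP-Stein: finite sets of vectors closed under the third point

PROOF. Suppose `4 ≤ X.card`. Let `v ∈ X`. Choose `v₁ ∈ X`, `v₁ ≠ v`, and `v₂ ∈ X` different from `v, v₁, -v - v₁`. Put
`v₃ = -v₁ - v₂ ∈ X`; `v₃ ≠ v`. `v₅ = -v₁ - v ∈ X`, `v₆ = -v₂ - v ∈ X`, `v₅ ≠ v₆`, `v₈ = -v₅ - v₆ = 2 v - v₃ ∈ X`. `v₈ ≠ v₃` (otherwise
`v₃ = v`), so `-v₈ - v₃ = -2 v ∈ X`. So `X` is stable under multiplication by `-2`; since it is finite and `0 ∉ X` this is
impossible (the vectors `(-2)^k v` are pairwise different), as `X` is nonempty. -/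

set_option autoImplicit false

namespace Pool.Agent.Lib.MP_7ab245_nt.Solv

theorem steiner_le {W : Type*} [AddCommGroup W] [Module ℚ W] (X : Finset W) (h0 : (0 : W) ∉ X)
    (h : ∀ u ∈ X, ∀ v ∈ X, u ≠ v → -u - v ∈ X) : X.card ≤ 3 := by
  classical
  by_contra hcon
  push Not at hcon
  -- stability under multiplication by `-2`
  have hstab : ∀ v ∈ X, (-2 : ℚ) • v ∈ X := by
    intro v hv
    have h1 : ∃ v₁ ∈ X, v₁ ∉ ({v} : Finset W) := by
      by_contra hno
      push Not at hno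
      have := Finset.card_le_card (show X ⊆ ({v} : Finset W) from hno)
      rw [Finset.card_singleton] at this
      omega
    obtain ⟨v₁, hv₁, hne₁⟩ := h1
    rw [Finset.mem_singleton] at hne₁
    have h2 : ∃ v₂ ∈ X, v₂ ∉ ({v, v₁, -v - v₁} : Finset W) := by
      by_contra hno
      push Not at hno
      have := Finset.card_le_card (show X ⊆ ({v, v₁, -v - v₁} : Finset W) from hno)
      have h3 := Finset.card_le_three (a := v) (b := v₁) (c := -v - v₁)
      omega
    obtain ⟨v₂, hv₂, hne₂⟩ := h2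
    simp only [Finset.mem_insert, Finset.mem_singleton, not_or] at hne₂
    obtain ⟨hne₂, hne₂₁, hne₂₃⟩ := hne₂
    have hv₃ : -v₁ - v₂ ∈ X := h _ hv₁ _ hv₂ (Ne.symm hne₂₁)
    have hne₃ : -v₁ - v₂ ≠ v := by
      intro h3
      apply hne₂₃
      rw [← h3]; abel
    have hv₅ : -v₁ - v ∈ X := h _ hv₁ _ hv hne₁
    have hv₆ : -v₂ - v ∈ X := h _ hv₂ _ hv hne₂
    have hne₅ : -v₁ - v ≠ -v₂ - v := by
      intro h3
      apply hne₂₁
      have h4 : -v₁ = -v₂ := sub_left_injective h3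
      exact (neg_injective h4).symm
    have hv₈ := h _ hv₅ _ hv₆ hne₅
    have hne₈ : -(-v₁ - v) - (-v₂ - v) ≠ -v₁ - v₂ := by
      intro h3
      apply hne₃
      have h4 : (2 : ℚ) • (-v₁ - v₂) = (2 : ℚ) • v := by
        have h5 : -(-v₁ - v) - (-v₂ - v) = (2 : ℚ) • v - (-v₁ - v₂) := by
          rw [two_smul]; abel
        rw [h5] at h3
        rw [two_smul]
        calc (-v₁ - v₂) + (-v₁ - v₂) = ((2 : ℚ) • v - (-v₁ - v₂)) + (-v₁ - v₂) := by rw [h3]
          _ = (2 : ℚ) • v := by abel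
      exact smul_right_injective W (two_ne_zero' ℚ) h4
    have h9 := h _ hv₈ _ hv₃ hne₈
    have h10 : -(-(-v₁ - v) - (-v₂ - v)) - (-v₁ - v₂) = (-2 : ℚ) • v := by
      rw [neg_smul, two_smul]; abel
    rw [h10] at h9
    exact h9
  have hne : X.Nonempty := by
    rw [← Finset.card_pos]; omega
  obtain ⟨v, hv⟩ := hne
  have hv0 : v ≠ 0 := fun h1 => h0 (h1 ▸ hv)
  have hpow : ∀ k : ℕ, ((-2 : ℚ) ^ k) • v ∈ X := by
    intro k
    induction k with
    | zero => rw [pow_zero, one_smul]; exact hv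
    | succ k ih =>
      have := hstab _ ih
      rw [smul_smul, ← pow_succ'] at this
      exact this
  have hinj : Function.Injective fun k : ℕ => ((-2 : ℚ) ^ k) • v := by
    intro k l hkl
    have h1 : ((-2 : ℚ) ^ k) = (-2 : ℚ) ^ l := smul_left_injective ℚ hv0 hkl
    have h2 : |(-2 : ℚ) ^ k| = |(-2 : ℚ) ^ l| := by rw [h1]
    rw [abs_pow, abs_pow, abs_neg, abs_two] at h2
    exact pow_right_injective₀ (by norm_num) (by norm_num) h2
  have hfin : (Set.range fun k : ℕ => ((-2 : ℚ) ^ k) • v).Finite :=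
    X.finite_toSet.subset (by rintro _ ⟨k, rfl⟩; exact hpow k)
  exact Set.infinite_range_of_injective hinj hfin

end Pool.Agent.Lib.MP_7ab245_nt.Solv
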