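import Pool.Agent.Lib.MP_7ab245_nt.Solv.GA.Base
import Pool.Agent.Lib.MP_7ab245_nt.Solv.GA.Cyc
import Pool.Agent.Lib.MP_7ab245_nt.Solv.GA.Stein

/-! # SOLVP-OddCase: the case q odd

PROOF. `L := lineStab ρ w ≥ N`, `N` is normal (`x n x⁻¹ n⁻¹ ∈ N`). Let `P` be a Sylow `q`-subgroup of `G` (`Fact q.Prime`). Every `b ∈ P` has order
`q ^ s`, an odd number, so (1) if `ρ b y = ± y` for a vector `y ≠ 0` then `ρ b y = y`. (2) for `b ∈ P`: `b ^ q ∈ N ⊓ P`, so
`ρ (b ^ q) w = w` by `h.sgn` and (1), i.e. `(ρ b ^ q) w = w`. Suppose no `u` exists. Then for every `b ∈ P` with `ρ b w ≠ w` `cyc_dep` gives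
`q = 3` and `w + ρ b w + ρ b (ρ b w) = 0`. Let `X` be the finset of the vectors `ρ x w`, `x ∈ P`. For `x, y ∈ P` with `ρ x w ≠ ρ y w` put
`b = x⁻¹ y`: `ρ b w ≠ w` and applying `ρ x`: `-ρ x w - ρ y w = ρ (x * b * b) w ∈ X`. So `X.card ≤ 3` by `steiner_le`.
(3) `L.index ≤ X.card`: `X.card = (stabiliser of w in P).index` in `P` and the stabiliser of `w` in `P` is `L.subgroupOf P` by (1), so
`X.card = L.relIndex P` (orbit-stabiliser; only `≥` is needed: the map `ρ x w ↦ x (L ⊓ P)` is well defined and onto).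
`L.index` is a power of `q`: it divides `N.index`, and `G ⧸ N` is a `q`-group (every element has `q`-th power `1`: `IsPGroup`,
`IsPGroup.iff_card`). `L.index ∣ (L ⊓ P).index = L.relIndex P * P.index`, `q ∤ P.index` (`Sylow.not_dvd_index` or similar), so
`L.index ∣ L.relIndex P`, which is positive. Together `L.index ≤ 3`, contradiction. -/

set_option autoImplicit false

namespace Pool.Agent.Lib.MP_7ab245_nt.Solv

theorem odd_case {G W : Type*} [Group G] [Finite G] [AddCommGroup W] [Module ℚ W]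
    {ρ : Representation ℚ G W} {w : W} {q : ℕ} {N : Subgroup G} (h : EAb ρ w q N) (hq : q.Prime)
    (hq2 : q ≠ 2) (hidx : 3 < (lineStab ρ w).index) :
    ∃ u : G, LinearIndependent ℚ ![w, ρ u w, ρ (u * u) w] := by
  classical
  have : Fact q.Prime := ⟨hq⟩
  have hmul : ∀ (a b : G) (v : W), ρ a (ρ b v) = ρ (a * b) v := by
    intro a b v
    rw [map_mul, Module.End.mul_apply]
  have hqodd : Odd q := hq.odd_of_ne_two hq2
  set L := lineStab ρ w with hL
  have hNL : N ≤ L := h.le_lineStab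
  have hNn : N.Normal := by
    refine ⟨fun n hn g => ?_⟩
    have h1 := N.mul_mem (h.comm g n) hn
    have h2 : g * n * g⁻¹ * n⁻¹ * n = g * n * g⁻¹ := by group
    rwa [h2] at h1
  obtain ⟨P⟩ : Nonempty (Sylow q G) := inferInstance
  -- (1)
  have hodd : ∀ b ∈ (P : Subgroup G), ∀ y : W, ρ b y = -y → y = 0 := by
    intro b hb y hby
    obtain ⟨k, hk⟩ := (IsPGroup.iff_orderOf.1 P.isPGroup') ⟨b, hb⟩
    have hk' : b ^ (q ^ k) = 1 := by
      have h1 : (⟨b, hb⟩ : (P : Subgroup G)) ^ (q ^ k) = 1 := by rw [← hk]; exact pow_orderOf_eq_one _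
      have h2 := congrArg (fun z : (P : Subgroup G) => (z : G)) h1
      simpa using h2
    have h3 : ∀ m : ℕ, ρ (b ^ m) y = (-1 : ℚ) ^ m • y := by
      intro m
      induction m with
      | zero => simp
      | succ m ih =>
        rw [pow_succ, ← hmul, hby, map_neg, ih, pow_succ]
        module
    have h4 := h3 (q ^ k)
    rw [hk', map_one, Module.End.one_apply, (hqodd.pow).neg_one_pow] at h4
    have h5 : (2 : ℚ) • y = 0 := by
      calc (2 : ℚ) • y = y - (-1 : ℚ) • y := by module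
        _ = 0 := by rw [← h4, sub_self]
    rcases smul_eq_zero.1 h5 with h6 | h6
    · norm_num at h6
    · exact h6
  -- (2)
  have hpow : ∀ b ∈ (P : Subgroup G), ((ρ b) ^ q) w = w := by
    intro b hb
    have h1 : (ρ b) ^ q = ρ (b ^ q) := (map_pow ρ b q).symm
    rw [h1]
    have h2 := h.sgn (b ^ q) (h.pow b) 1
    rw [map_one, Module.End.one_apply] at h2
    rcases h2 with h3 | h3
    · exact h3
    · exact absurd (hodd (b ^ q) (Subgroup.pow_mem _ hb q) w h3) h.ne
  by_contra hcon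
  push Not at hcon
  have hdep : ∀ b ∈ (P : Subgroup G), ρ b w ≠ w → w + ρ b w + ρ b (ρ b w) = 0 := by
    intro b hb hbw
    refine (cyc_dep (ρ b) w q hq hq2 (hpow b hb) hbw ?_).2
    have h1 := hcon b
    rwa [← hmul] at h1
  -- the orbit
  let f : ↥(P : Subgroup G) → W := fun x => ρ (x : G) w
  set X : Finset W := (Set.finite_range f).toFinset with hX
  have hmemX : ∀ v : W, v ∈ X ↔ ∃ x : (P : Subgroup G), ρ (x : G) w = v := by
    intro v
    rw [hX, Set.Finite.mem_toFinset, Set.mem_range]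
  have hX0 : (0 : W) ∉ X := by
    rw [hmemX]
    rintro ⟨x, hx⟩
    apply h.ne
    have h1 : ρ (x : G)⁻¹ (ρ (x : G) w) = w := by
      rw [hmul, inv_mul_cancel, map_one, Module.End.one_apply]
    rw [← h1, hx, map_zero]
  have hXst : ∀ u ∈ X, ∀ v ∈ X, u ≠ v → -u - v ∈ X := by
    intro u hu v hv huv
    rw [hmemX] at hu hv ⊢
    obtain ⟨x, rfl⟩ := hu
    obtain ⟨y, rfl⟩ := hv
    have hb : ρ (((x⁻¹ * y : (P : Subgroup G)) : G)) w ≠ w := by
      intro h1
      apply huv
      have h2 : ρ (x : G) (ρ (((x⁻¹ * y : (P : Subgroup G)) : G)) w) = ρ (x : G) w := by rw [h1]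
      rw [hmul] at h2
      rw [← h2]
      congr 2
      push_cast
      group
    have h1 := hdep _ (x⁻¹ * y).2 hb
    refine ⟨x * (x⁻¹ * y) * (x⁻¹ * y), ?_⟩
    have h2 := congrArg (fun v => ρ (x : G) v) h1
    simp only [map_add, map_zero] at h2
    rw [hmul, hmul, hmul] at h2
    have h3 : ((x : G) * ((x⁻¹ * y : (P : Subgroup G)) : G)) = y := by
      push_cast
      group
    rw [h3] at h2
    have h4 : (((x * (x⁻¹ * y) * (x⁻¹ * y) : (P : Subgroup G)) : G)) =
        (y : G) * ((x⁻¹ * y : (P : Subgroup G)) : G) := by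
      push_cast
      group
    rw [h4]
    have h5 : ρ ((y : G) * ((x⁻¹ * y : (P : Subgroup G)) : G)) w +
        (ρ (x : G) w + ρ (y : G) w) = 0 := by
      rw [add_comm]; exact h2
    rw [eq_neg_of_add_eq_zero_left h5]
    abel
  have hX3 : X.card ≤ 3 := steiner_le X hX0 hXst
  -- (3)
  have hrel : L.relIndex (P : Subgroup G) ≤ X.card := by
    have e1 : L.relIndex (P : Subgroup G) =
        Nat.card ((P : Subgroup G) ⧸ L.subgroupOf (P : Subgroup G)) := rfl
    have e2 : Nat.card X = X.card := by rw [Nat.card_eq_fintype_card, Fintype.card_coe]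
    rw [e1, ← e2]
    apply Nat.card_le_card_of_injective
      (fun c : (P : Subgroup G) ⧸ L.subgroupOf (P : Subgroup G) =>
        (⟨ρ (c.out : G) w, (hmemX _).2 ⟨c.out, rfl⟩⟩ : X))
    intro c d hcd
    have h1 : ρ ((c.out : (P : Subgroup G)) : G) w = ρ ((d.out : (P : Subgroup G)) : G) w := by
      exact congrArg Subtype.val hcd
    rw [← QuotientGroup.out_eq' c, ← QuotientGroup.out_eq' d, QuotientGroup.eq,
      Subgroup.mem_subgroupOf]
    refine (mem_lineStab ρ w _).2 (Or.inl ?_)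
    push_cast
    rw [← hmul, ← h1, hmul, inv_mul_cancel, map_one, Module.End.one_apply]
  have hNidx : ∃ n : ℕ, N.index = q ^ n := by
    have hpg : IsPGroup q (G ⧸ N) := by
      intro g
      induction g using QuotientGroup.induction_on with
      | H z =>
        refine ⟨1, ?_⟩
        rw [pow_one, ← QuotientGroup.mk_pow, QuotientGroup.eq_one_iff]
        exact h.pow z
    exact IsPGroup.iff_card.1 hpg
  obtain ⟨n, hn⟩ := hNidx
  have hLN : L.index ∣ q ^ n := by
    rw [← hn]
    exact Subgroup.index_dvd_of_le hNL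
  have hcop : Nat.Coprime L.index (P : Subgroup G).index := by
    have h1 : ¬ q ∣ (P : Subgroup G).index := P.not_dvd_index
    have h2 : Nat.Coprime q (P : Subgroup G).index := (Nat.Prime.coprime_iff_not_dvd hq).2 h1
    exact Nat.Coprime.coprime_dvd_left hLN (h2.pow_left n)
  have hdvd : L.index ∣ L.relIndex (P : Subgroup G) * (P : Subgroup G).index := by
    rw [← Subgroup.inf_relIndex_right, Subgroup.relIndex_mul_index inf_le_right]
    exact Subgroup.index_dvd_of_le inf_le_left
  have hdvd' : L.index ∣ L.relIndex (P : Subgroup G) := hcop.dvd_of_dvd_mul_right hdvd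
  have hpos : 0 < L.relIndex (P : Subgroup G) := by
    apply Nat.pos_of_ne_zero
    exact Subgroup.index_ne_zero_of_finite
  have := Nat.le_of_dvd hpos hdvd'
  omega

end Pool.Agent.Lib.MP_7ab245_nt.Solv
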