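import Pool.Agent.Lib.MP_7ab245_nt.Solv.GA.Base

/-! # SOLVP-Prep: reduction to an elementary abelian section

PROOF. `L := lineStab ρ w`, `N₀ := L.normalCore` (the largest normal subgroup of `G` contained in `L`). For `n ∈ N₀`
and `x : G`: `x⁻¹ n x ∈ N₀ ≤ L`, so `ρ n (ρ x w) = ρ x (ρ (x⁻¹ n x) w) = ± ρ x w`.
`[A, A]` (`⁅A, A⁆`) is normal in `G` and contained in `L` (generators by `hA2`), so `⁅A, A⁆ ≤ N₀`
(`Subgroup.normal_le_normalCore`). `A ≤ N₀` is false by `hA1`. `A / (A ⊓ N₀)` is an abelian group (commutators in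
`N₀`), nontrivial and finite, so some prime `q` divides its order and Cauchy gives `a ∈ A`, `a ∉ N₀`, `a ^ q ∈ N₀`
(alternatively: take any `a₀ ∈ A \ N₀`, let `k ≥ 2` be the order of `a₀` modulo `N₀`, `q` a prime factor of `k`,
`a = a₀ ^ (k / q)`; no quotient group is needed). Put `A' := {a ∈ A | a ^ q ∈ N₀}`: a subgroup because
`(a b) ^ q ∈ a ^ q b ^ q N₀` for `a, b ∈ A` (work in the quotient `G ⧸ N₀`, where the images of `a, b` commute:
`Commute.mul_pow`); normal in `G` because `A` and `N₀` are. `N := A ⊓ N₀ ≤ A'`. If `A' ≤ L` then `A' ≤ N₀`,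
contradiction with `a`; so some element of `A'` is not in `L`. -/

set_option autoImplicit false

namespace Pool.Agent.Lib.MP_7ab245_nt.Solv

theorem prep {G W : Type*} [Group G] [Finite G] [AddCommGroup W] [Module ℚ W]
    (ρ : Representation ℚ G W) (w : W) (A : Subgroup G) [A.Normal]
    (hA1 : ∃ a ∈ A, a ∉ lineStab ρ w)
    (hA2 : ∀ a ∈ A, ∀ b ∈ A, a * b * a⁻¹ * b⁻¹ ∈ lineStab ρ w) :
    ∃ (q : ℕ) (A' N : Subgroup G), q.Prime ∧ A'.Normal ∧ N ≤ A' ∧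
      (∀ n ∈ N, ∀ x : G, ρ n (ρ x w) = ρ x w ∨ ρ n (ρ x w) = -ρ x w) ∧
      (∀ a ∈ A', a ^ q ∈ N) ∧ (∀ a ∈ A', ∀ b ∈ A', a * b * a⁻¹ * b⁻¹ ∈ N) ∧
      ∃ a ∈ A', a ∉ lineStab ρ w := by
  classical
  set L := lineStab ρ w with hL
  set N₀ := L.normalCore with hN₀
  have hN₀L : N₀ ≤ L := Subgroup.normalCore_le L
  have hAn : A.Normal := inferInstance
  have hN₀n : N₀.Normal := inferInstance
  -- commutators of A are in N₀
  have hcomm : ∀ a ∈ A, ∀ b ∈ A, a * b * a⁻¹ * b⁻¹ ∈ N₀ := by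
    intro a ha b hb g
    have h1 := hA2 (g * a * g⁻¹) (hAn.conj_mem a ha g) (g * b * g⁻¹) (hAn.conj_mem b hb g)
    have h2 : g * a * g⁻¹ * (g * b * g⁻¹) * (g * a * g⁻¹)⁻¹ * (g * b * g⁻¹)⁻¹ =
        g * (a * b * a⁻¹ * b⁻¹) * g⁻¹ := by group
    rw [h2] at h1
    exact h1
  obtain ⟨a₀, ha₀A, ha₀L⟩ := hA1
  have ha₀N : a₀ ∉ N₀ := fun h => ha₀L (hN₀L h)
  -- order of a₀ in the quotient
  let π : G →* G ⧸ N₀ := QuotientGroup.mk' N₀
  have hπ : ∀ g : G, π g = 1 ↔ g ∈ N₀ := fun g => QuotientGroup.eq_one_iff g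
  have hfin : Finite (G ⧸ N₀) := inferInstance
  have hk1 : orderOf (π a₀) ≠ 1 := by
    intro h
    rw [orderOf_eq_one_iff] at h
    exact ha₀N ((hπ a₀).mp h)
  obtain ⟨q, hq, hqk⟩ := Nat.exists_prime_and_dvd hk1
  obtain ⟨m, hm⟩ := hqk
  have hkpos : 0 < orderOf (π a₀) := orderOf_pos _
  have hm0 : 0 < m := by
    rcases Nat.eq_zero_or_pos m with h | h
    · rw [hm, h, mul_zero] at hkpos
      exact absurd hkpos (lt_irrefl _)
    · exact h
  have haA : a₀ ^ m ∈ A := A.pow_mem ha₀A m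
  have haN : a₀ ^ m ∉ N₀ := by
    intro h
    have h1 : π a₀ ^ m = 1 := by
      rw [← map_pow]
      exact (hπ _).mpr h
    have h2 := orderOf_dvd_of_pow_eq_one h1
    have h3 := Nat.le_of_dvd hm0 h2
    rw [hm] at h3
    have := hq.two_le
    nlinarith
  have haq : (a₀ ^ m) ^ q ∈ N₀ := by
    rw [← hπ, ← pow_mul, map_pow, mul_comm, ← hm]
    exact pow_orderOf_eq_one _
  -- the subgroup A'
  have hcom : ∀ a ∈ A, ∀ b ∈ A, Commute (π a) (π b) := by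
    intro a ha b hb
    have h1 := hcomm a ha b hb
    rw [← hπ, map_mul, map_mul, map_mul, map_inv, map_inv] at h1
    have h2 : π a * π b = π b * π a := by
      have h3 : π a * π b * (π a)⁻¹ = π b := by
        rwa [mul_inv_eq_one] at h1
      rwa [mul_inv_eq_iff_eq_mul] at h3
    exact h2
  let A' : Subgroup G :=
    { carrier := {a | a ∈ A ∧ a ^ q ∈ N₀}
      one_mem' := ⟨A.one_mem, by simp [N₀.one_mem]⟩
      mul_mem' := by
        rintro a b ⟨ha, ha'⟩ ⟨hb, hb'⟩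
        refine ⟨A.mul_mem ha hb, ?_⟩
        rw [← hπ, map_pow, map_mul, (hcom a ha b hb).mul_pow, ← map_pow, ← map_pow,
          (hπ _).mpr ha', (hπ _).mpr hb', one_mul]
      inv_mem' := by
        rintro a ⟨ha, ha'⟩
        refine ⟨A.inv_mem ha, ?_⟩
        rw [inv_pow]
        exact N₀.inv_mem ha' }
  have hA' : ∀ a, a ∈ A' ↔ a ∈ A ∧ a ^ q ∈ N₀ := fun a => Iff.rfl
  have hA'n : A'.Normal := by
    constructor
    rintro a ⟨ha, ha'⟩ g
    refine ⟨hAn.conj_mem a ha g, ?_⟩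
    rw [conj_pow]
    exact hN₀n.conj_mem _ ha' g
  refine ⟨q, A', A ⊓ N₀, hq, hA'n, ?_, ?_, ?_, ?_, ?_⟩
  · rintro n ⟨hnA, hnN⟩
    exact ⟨hnA, N₀.pow_mem hnN q⟩
  · rintro n ⟨hnA, hnN⟩ x
    have h1 : x⁻¹ * n * x ∈ L := by
      have := hN₀n.conj_mem n hnN x⁻¹
      rw [inv_inv] at this
      exact hN₀L this
    have h2 : ρ n (ρ x w) = ρ x (ρ (x⁻¹ * n * x) w) := by
      rw [← Module.End.mul_apply, ← Module.End.mul_apply, ← map_mul, ← map_mul]
      congr 2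
      group
    rw [h2]
    rcases (mem_lineStab ρ w _).mp h1 with h | h
    · left; rw [h]
    · right; rw [h, map_neg]
  · rintro a ⟨ha, ha'⟩
    exact ⟨A.pow_mem ha q, ha'⟩
  · rintro a ⟨ha, ha'⟩ b ⟨hb, hb'⟩
    refine ⟨?_, hcomm a ha b hb⟩
    exact A.mul_mem (A.mul_mem (A.mul_mem ha hb) (A.inv_mem ha)) (A.inv_mem hb)
  · by_contra hcon
    push Not at hcon
    have h1 : A' ≤ N₀ := Subgroup.normal_le_normalCore.mpr hcon
    exact haN (h1 ⟨haA, haq⟩)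

end Pool.Agent.Lib.MP_7ab245_nt.Solv
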