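import Pool.Agent.Lib.MP_7ab245_nt.Solv.GA.Comb8

/-! # SOLVP-Four: three commuting involutions give a regular pair

PROOF. For `i : Fin 3 → Fin 2` put `P i = (1 + (-1)^{i 0} a) (1 + (-1)^{i 1} b) (1 + (-1)^{i 2} c)` and `Ω = {i | P i w ≠ 0}`. Then
(A) `mon a b c e (P i w) = P i (mon a b c e w) = (-1)^{par i e} P i w` (from `a (1 + ε a) = ε (1 + ε a)` for `ε = ± 1`);
(B) `∑ i, P i w = 8 w`; (C) `8 (mon e w - w) = ∑ i, ((-1)^{par i e} - 1) P i w`, so if `par i e = 0` for all `i ∈ Ω`
then `mon e w = w`; if `par i e = 1` for all `i ∈ Ω` then `mon e w = -w`. So by the hypothesis `h`, for every `e ≠ 0`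
both parities occur on `Ω`. (D) `comb8`: then there are `e, f` such that all four pairs of parities
`(par i e, par i f)` occur for `i ∈ Ω`. (E) If `c0 w + c1 (mon e w) + c2 (mon f w) + c3 (mon e (mon f w)) = 0`, apply `P i`, `i ∈ Ω`:
`c0 + c1 σ + c2 τ + c3 σ τ = 0` with `σ = (-1)^{par i e}`, `τ = (-1)^{par i f}`; all four `(σ, τ)` occur, so `c = 0`. -/

set_option autoImplicit false

namespace Pool.Agent.Lib.MP_7ab245_nt.Solv

/-- the product `a ^ e 0 * b ^ e 1 * c ^ e 2` -/
def mon {M : Type*} [Monoid M] (a b c : M) (e : Fin 3 → Fin 2) : M :=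
  a ^ (e 0 : ℕ) * b ^ (e 1 : ℕ) * c ^ (e 2 : ℕ)

/-- sign -/
private def sg (t : Fin 2) : ℚ := if t = 0 then 1 else -1

private theorem sg_sq (t : Fin 2) : sg t * sg t = 1 := by
  unfold sg; split_ifs <;> norm_num

private theorem sg_add (s t : Fin 2) : sg (s + t) = sg s * sg t := by
  fin_cases s <;> fin_cases t <;> simp [sg]

private theorem sg_mul (s t : Fin 2) : sg (s * t) = sg s ^ (t : ℕ) := by
  fin_cases s <;> fin_cases t <;> simp [sg]

private theorem sg_zero : sg 0 = 1 := by simp [sg]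

private theorem sg_one : sg 1 = -1 := by simp [sg]

section
variable {W : Type*} [AddCommGroup W] [Module ℚ W]

/-- the unnormalised projections -/
private noncomputable def pr (a b c : W →ₗ[ℚ] W) (i : Fin 3 → Fin 2) : W →ₗ[ℚ] W :=
  (1 + sg (i 0) • a) * ((1 + sg (i 1) • b) * (1 + sg (i 2) • c))

private theorem mul_one_add (a : W →ₗ[ℚ] W) (ha : a * a = 1) (t : Fin 2) :
    a * (1 + sg t • a) = sg t • (1 + sg t • a) := by
  rw [mul_add, mul_one, mul_smul_comm, ha, smul_add, smul_smul, sg_sq, one_smul, add_comm]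

private theorem pow_pr (a X : W →ₗ[ℚ] W) (s : ℚ) (h : a * X = s • X) (k : ℕ) :
    a ^ k * X = s ^ k • X := by
  induction k with
  | zero => simp
  | succ k ih =>
    rw [pow_succ, mul_assoc, h, mul_smul_comm, ih, smul_smul, pow_succ]
    congr 1
    ring

private theorem comm_one_add {a b : W →ₗ[ℚ] W} (h : Commute a b) (t : ℚ) :
    Commute a (1 + t • b) :=
  (Commute.one_right a).add_right (h.smul_right t)

private theorem mon_pr (a b c : W →ₗ[ℚ] W)
    (ha : a * a = 1) (hb : b * b = 1) (hc : c * c = 1) (hab : Commute a b) (hac : Commute a c)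
    (hbc : Commute b c) (e i : Fin 3 → Fin 2) :
    mon a b c e * pr a b c i = sg (par i e) • pr a b c i := by
  have h1 : a * pr a b c i = sg (i 0) • pr a b c i := by
    unfold pr
    rw [← mul_assoc, mul_one_add a ha, smul_mul_assoc]
  have h2 : b * pr a b c i = sg (i 1) • pr a b c i := by
    unfold pr
    rw [← mul_assoc, (comm_one_add hab.symm _).eq, mul_assoc, ← mul_assoc b, mul_one_add b hb,
      smul_mul_assoc, mul_smul_comm]
  have h3 : c * pr a b c i = sg (i 2) • pr a b c i := by
    unfold pr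
    rw [← mul_assoc, (comm_one_add hac.symm _).eq, mul_assoc, ← mul_assoc c,
      (comm_one_add hbc.symm _).eq, mul_assoc, mul_one_add c hc, mul_smul_comm, mul_smul_comm]
  unfold mon
  rw [mul_assoc, pow_pr c _ _ h3, mul_smul_comm, mul_assoc, pow_pr b _ _ h2, mul_smul_comm,
    pow_pr a _ _ h1, smul_smul, smul_smul]
  congr 1
  unfold par
  rw [sg_add, sg_add, sg_mul, sg_mul, sg_mul]
  ring

private theorem pr_mon (a b c : W →ₗ[ℚ] W)
    (hab : Commute a b) (hac : Commute a c)
    (hbc : Commute b c) (e i : Fin 3 → Fin 2) :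
    pr a b c i * mon a b c e = mon a b c e * pr a b c i := by
  have key : ∀ x : W →ₗ[ℚ] W, Commute x a → Commute x b → Commute x c →
      Commute x (pr a b c i) := by
    intro x h1 h2 h3
    unfold pr
    exact (comm_one_add h1 _).mul_right ((comm_one_add h2 _).mul_right (comm_one_add h3 _))
  have h : Commute (mon a b c e) (pr a b c i) := by
    unfold mon
    refine Commute.mul_left (Commute.mul_left ?_ ?_) ?_
    · exact (key a (Commute.refl a) hab hac).pow_left _
    · exact (key b hab.symm (Commute.refl b) hbc).pow_left _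
    · exact (key c hac.symm hbc.symm (Commute.refl c)).pow_left _
  exact h.eq.symm

private theorem sum_pr (a b c : W →ₗ[ℚ] W) :
    ∑ x : Fin 2, ∑ y : Fin 2, ∑ z : Fin 2, pr a b c ![x, y, z] = (8 : ℚ) • (1 : W →ₗ[ℚ] W) := by
  have h : ∀ a : W →ₗ[ℚ] W, (1 + sg 0 • a) + (1 + sg 1 • a) = (2 : ℚ) • (1 : W →ₗ[ℚ] W) := by
    intro a
    rw [sg_zero, sg_one]
    module
  unfold pr
  simp only [Matrix.cons_val_zero, Matrix.cons_val_one, Matrix.cons_val]
  simp only [← Finset.mul_sum, ← Finset.sum_mul, Fin.sum_univ_two, h]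
  rw [smul_mul_smul_comm, smul_mul_smul_comm, mul_one, mul_one]
  norm_num

theorem four_of_three (a b c : W →ₗ[ℚ] W)
    (ha : a * a = 1) (hb : b * b = 1) (hc : c * c = 1) (hab : a * b = b * a) (hac : a * c = c * a)
    (hbc : b * c = c * b) (w : W)
    (h : ∀ e : Fin 3 → Fin 2, e ≠ 0 → mon a b c e w ≠ w ∧ mon a b c e w ≠ -w) :
    ∃ e f : Fin 3 → Fin 2,
      LinearIndependent ℚ ![w, mon a b c e w, mon a b c f w, mon a b c e (mon a b c f w)] := by
  have hA : ∀ e i : Fin 3 → Fin 2, mon a b c e (pr a b c i w) = sg (par i e) • pr a b c i w := by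
    intro e i
    have h1 := mon_pr a b c ha hb hc hab hac hbc e i
    have h2 := congrArg (fun T : W →ₗ[ℚ] W => T w) h1
    simpa using h2
  have hA' : ∀ e i : Fin 3 → Fin 2, ∀ v : W,
      pr a b c i (mon a b c e v) = mon a b c e (pr a b c i v) := by
    intro e i v
    have h1 := pr_mon a b c hab hac hbc e i
    have h2 := congrArg (fun T : W →ₗ[ℚ] W => T v) h1
    simpa using h2
  have hB : ∑ x : Fin 2, ∑ y : Fin 2, ∑ z : Fin 2, pr a b c ![x, y, z] w = (8 : ℚ) • w := by
    have h1 := congrArg (fun T : W →ₗ[ℚ] W => T w) (sum_pr a b c)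
    simpa [LinearMap.sum_apply] using h1
  set Ω : Set (Fin 3 → Fin 2) := {i | pr a b c i w ≠ 0} with hΩ
  have hpar : ∀ e : Fin 3 → Fin 2, ∀ t : Fin 2, (∀ i ∈ Ω, par i e = t) →
      mon a b c e w = sg t • w := by
    intro e t ht
    have h1 : (8 : ℚ) • mon a b c e w = (8 : ℚ) • (sg t • w) := by
      calc (8 : ℚ) • mon a b c e w = mon a b c e ((8 : ℚ) • w) := by rw [map_smul]
        _ = ∑ x : Fin 2, ∑ y : Fin 2, ∑ z : Fin 2, mon a b c e (pr a b c ![x, y, z] w) := by
            rw [← hB]
            simp only [map_sum]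
        _ = ∑ x : Fin 2, ∑ y : Fin 2, ∑ z : Fin 2, sg t • pr a b c ![x, y, z] w := by
            refine Finset.sum_congr rfl fun x _ => Finset.sum_congr rfl fun y _ =>
              Finset.sum_congr rfl fun z _ => ?_
            rw [hA]
            by_cases hi : pr a b c ![x, y, z] w = 0
            · rw [hi, smul_zero, smul_zero]
            · rw [ht _ hi]
        _ = (8 : ℚ) • (sg t • w) := by
            simp only [← Finset.smul_sum]
            rw [hB, smul_comm]
    exact smul_right_injective W (by norm_num : (8 : ℚ) ≠ 0) h1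
  have hΩ2 : ∀ e : Fin 3 → Fin 2, e ≠ 0 → (∃ i ∈ Ω, par i e = 0) ∧ ∃ i ∈ Ω, par i e = 1 := by
    intro e he
    have hfin : ∀ t : Fin 2, t ≠ 0 → t = 1 := by decide
    have hfin' : ∀ t : Fin 2, t ≠ 1 → t = 0 := by decide
    constructor
    · by_contra hcon
      push Not at hcon
      have h1 := hpar e 1 (fun i hi => hfin _ (hcon i hi))
      rw [sg_one, neg_one_smul] at h1
      exact (h e he).2 h1
    · by_contra hcon
      push Not at hcon
      have h1 := hpar e 0 (fun i hi => hfin' _ (hcon i hi))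
      rw [sg_zero, one_smul] at h1
      exact (h e he).1 h1
  obtain ⟨e, f, hef⟩ := comb8 Ω hΩ2
  refine ⟨e, f, ?_⟩
  rw [Fintype.linearIndependent_iff]
  intro g hg
  rw [Fin.sum_univ_four] at hg
  simp only [Matrix.cons_val_zero, Matrix.cons_val_one, Matrix.cons_val] at hg
  have key : ∀ s t : Fin 2, g 0 + g 1 * sg s + g 2 * sg t + g 3 * (sg s * sg t) = 0 := by
    intro s t
    obtain ⟨i, hi, hs, ht⟩ := hef s t
    have h1 := congrArg (fun v => pr a b c i v) hg
    simp only [map_add, map_smul, map_zero, hA', hA, hs, ht, smul_smul] at h1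
    rw [← add_smul, ← add_smul, ← add_smul] at h1
    rcases smul_eq_zero.1 h1 with h2 | h2
    · linear_combination h2
    · exact absurd h2 hi
  have k00 := key 0 0
  have k01 := key 0 1
  have k10 := key 1 0
  have k11 := key 1 1
  rw [sg_zero] at k00 k01 k10
  rw [sg_one] at k01 k10 k11
  intro i
  fin_cases i
  · show g 0 = 0
    linarith
  · show g 1 = 0
    linarith
  · show g 2 = 0
    linarith
  · show g 3 = 0
    linarith

end

end Pool.Agent.Lib.MP_7ab245_nt.Solv
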