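import Pool.Agent.Lib.MP_7ab245_nt.Solv.GA.ExInv

/-! # SOLVP-Three: three commuting involutions, independent modulo the line stabiliser (q = 2)

PROOF. `L := lineStab ρ w ≥ N`, normal, `G / L` elementary abelian (squares and commutators are in `N`).
For `a : G` let `Cent a = {x | Com ρ w a x}`, a subgroup (`x y`: `ρ a ρ x ρ y v = ρ x ρ a ρ y v = ρ x ρ y ρ a v`, the orbit is stable; inverse from
finiteness or directly), of index at most `2`: for `x : G` the element `a x a⁻¹ x⁻¹ ∈ N` acts on the orbit by a sign `β x = ± 1`,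
i.e. `ρ a ρ x v = β x • ρ x ρ a v`, `β (x y) = β x * β y` and `Cent a = {β = 1}`; so `x, y ∉ Cent a → x⁻¹ y ∈ Cent a`
(general lemma: if `x⁻¹ * y ∈ K` for all `x, y ∉ K` then `K.index ≤ 2`).
For a normal subgroup `M ≥ N` and `a : G` let `M⟨a⟩ = {x | x ∈ M ∨ a⁻¹ * x ∈ M}`, a subgroup containing `M` and `a` with
`M.relIndex M⟨a⟩ ≤ 2`, so `M.index ≤ 2 * M⟨a⟩.index`.
Step 1: `exists_inv` with `B = ⊤`, `M = L` gives `a ∉ L` with `Inv a` (`L.relIndex ⊤ = L.index > 64`).
Step 2: `B = Cent a`, `M₁ = L⟨a⟩`: `M₁.index ≥ L.index / 2 > 32`, `M₁.index ≤ (M₁ ⊓ B).index = M₁.relIndex B * B.index ≤ 2 * M₁.relIndex B`,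
so `M₁.relIndex B > 16`. Get `b ∈ Cent a`, `b ∉ M₁`, `Inv b`; `a * b ∉ L` because `a * b ∈ L` gives `b ∈ a⁻¹ L`, `a⁻¹ b = a⁻² (a b) ∈ L`, `b ∈ M₁`.
Step 3: `B = Cent a ⊓ Cent b` (index `≤ 4`), `M₂ = L⟨a⟩⟨b⟩` (index `> 16`), `M₂.relIndex B > 4`. Get `c ∈ B`, `c ∉ M₂`, `Inv c`; `c`, `a c`, `b c`, `a b c` are
not in `L` because `L, a, b ⊆ M₂` and `c ∉ M₂`. -/

set_option autoImplicit false

namespace Pool.Agent.Lib.MP_7ab245_nt.Solv

private theorem three_ap {G W : Type*} [Group G] [AddCommGroup W] [Module ℚ W]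
    (ρ : Representation ℚ G W) (w : W) (g x : G) : ρ g (ρ x w) = ρ (g * x) w := by
  rw [map_mul]
  rfl

private theorem three_com_iff {G W : Type*} [Group G] [AddCommGroup W] [Module ℚ W]
    (ρ : Representation ℚ G W) (w : W) (a b : G) :
    Com ρ w a b ↔ ∀ x, ρ (a * b * x) w = ρ (b * a * x) w := by
  unfold Com
  simp only [three_ap, mul_assoc]

/-- general lemma on subgroups of index at most two -/
private theorem three_index_le {G : Type*} [Group G] (K : Subgroup G)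
    (h : ∀ x y, x ∉ K → y ∉ K → x⁻¹ * y ∈ K) : K.index ≤ 2 := by
  by_cases hK : ∃ x, x ∉ K
  · obtain ⟨x, hx⟩ := hK
    have hs : Function.Surjective
        (fun t : Bool => if t then (QuotientGroup.mk x : G ⧸ K) else QuotientGroup.mk 1) := by
      intro q
      obtain ⟨y, rfl⟩ := QuotientGroup.mk_surjective q
      by_cases hy : y ∈ K
      · refine ⟨false, ?_⟩
        simp only [Bool.false_eq_true, if_false]
        rw [QuotientGroup.eq]
        simpa using hy
      · refine ⟨true, ?_⟩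
        simp only [if_true]
        rw [QuotientGroup.eq]
        exact h x y hx hy
    have h2 := Nat.card_le_card_of_surjective _ hs
    have h3 : Nat.card Bool = 2 := by
      rw [Nat.card_eq_fintype_card, Fintype.card_bool]
    rw [h3] at h2
    exact h2
  · push Not at hK
    have : K = ⊤ := by
      rw [Subgroup.eq_top_iff']
      exact hK
    rw [this, Subgroup.index_top]
    norm_num

/-- the subgroup generated by `M` and `a` when `G / M` is elementary abelian -/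
private def threeAdj {G : Type*} [Group G] (N M : Subgroup G) (hN : N ≤ M)
    (hp : ∀ a : G, a ^ 2 ∈ N) (hc : ∀ a b : G, a * b * a⁻¹ * b⁻¹ ∈ N) (a : G) : Subgroup G where
  carrier := {x | x ∈ M ∨ a⁻¹ * x ∈ M}
  one_mem' := Or.inl M.one_mem
  mul_mem' := by
    have hnorm : ∀ g, ∀ m ∈ M, g * m * g⁻¹ ∈ M := by
      intro g m hm
      have h1 := M.mul_mem (hN (hc g m)) hm
      have e : g * m * g⁻¹ * m⁻¹ * m = g * m * g⁻¹ := by group
      rwa [e] at h1
    rintro x y (hx | hx) (hy | hy)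
    · exact Or.inl (M.mul_mem hx hy)
    · right
      have h1 := M.mul_mem (hnorm a⁻¹ x hx) hy
      have e : a⁻¹ * x * a⁻¹⁻¹ * (a⁻¹ * y) = a⁻¹ * (x * y) := by group
      rwa [e] at h1
    · right
      have h1 := M.mul_mem hx hy
      rwa [mul_assoc] at h1
    · left
      have h1 := M.mul_mem (M.mul_mem (hN (hp a)) (hnorm a⁻¹ _ hx)) hy
      have e : a ^ 2 * (a⁻¹ * (a⁻¹ * x) * a⁻¹⁻¹) * (a⁻¹ * y) = x * y := by group
      rwa [e] at h1
  inv_mem' := by
    have hnorm : ∀ g, ∀ m ∈ M, g * m * g⁻¹ ∈ M := by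
      intro g m hm
      have h1 := M.mul_mem (hN (hc g m)) hm
      have e : g * m * g⁻¹ * m⁻¹ * m = g * m * g⁻¹ := by group
      rwa [e] at h1
    rintro x (hx | hx)
    · exact Or.inl (M.inv_mem hx)
    · right
      have h1 := M.mul_mem (hnorm a⁻¹ _ (M.inv_mem hx)) (M.inv_mem (hN (hp a)))
      have e : a⁻¹ * (a⁻¹ * x)⁻¹ * a⁻¹⁻¹ * (a ^ 2)⁻¹ = a⁻¹ * x⁻¹ := by group
      rwa [e] at h1

private theorem threeAdj_mem {G : Type*} [Group G] (N M : Subgroup G) (hN : N ≤ M)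
    (hp : ∀ a : G, a ^ 2 ∈ N) (hc : ∀ a b : G, a * b * a⁻¹ * b⁻¹ ∈ N) (a x : G) :
    x ∈ threeAdj N M hN hp hc a ↔ x ∈ M ∨ a⁻¹ * x ∈ M := Iff.rfl

private theorem threeAdj_le {G : Type*} [Group G] (N M : Subgroup G) (hN : N ≤ M)
    (hp : ∀ a : G, a ^ 2 ∈ N) (hc : ∀ a b : G, a * b * a⁻¹ * b⁻¹ ∈ N) (a : G) :
    M ≤ threeAdj N M hN hp hc a := fun _ hx => Or.inl hx

private theorem threeAdj_self {G : Type*} [Group G] (N M : Subgroup G) (hN : N ≤ M)
    (hp : ∀ a : G, a ^ 2 ∈ N) (hc : ∀ a b : G, a * b * a⁻¹ * b⁻¹ ∈ N) (a : G) :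
    a ∈ threeAdj N M hN hp hc a := Or.inr (by simp)

private theorem threeAdj_index {G : Type*} [Group G] (N M : Subgroup G) (hN : N ≤ M)
    (hp : ∀ a : G, a ^ 2 ∈ N) (hc : ∀ a b : G, a * b * a⁻¹ * b⁻¹ ∈ N) (a : G) :
    M.index ≤ 2 * (threeAdj N M hN hp hc a).index := by
  rw [← Subgroup.relIndex_mul_index (threeAdj_le N M hN hp hc a)]
  apply Nat.mul_le_mul_right
  unfold Subgroup.relIndex
  apply three_index_le
  rintro ⟨x, hx⟩ ⟨y, hy⟩ hx' hy'
  rw [Subgroup.mem_subgroupOf] at hx' hy' ⊢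
  have hx1 := ((threeAdj_mem N M hN hp hc a x).1 hx).resolve_left hx'
  have hy1 := ((threeAdj_mem N M hN hp hc a y).1 hy).resolve_left hy'
  have h1 := M.mul_mem (M.inv_mem hx1) hy1
  have e : (a⁻¹ * x)⁻¹ * (a⁻¹ * y) = x⁻¹ * y := by group
  rw [e] at h1
  exact h1

private theorem three_index_mul {G : Type*} [Group G] [Finite G] (M B : Subgroup G) :
    M.index ≤ M.relIndex B * B.index := by
  rw [← Subgroup.inf_relIndex_right M B, Subgroup.relIndex_mul_index inf_le_right]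
  exact Nat.le_of_dvd (Nat.pos_of_ne_zero Subgroup.index_ne_zero_of_finite)
    (Subgroup.index_dvd_of_le inf_le_left)

/-- the elements which commute with `a` on the orbit -/
private def threeCent {G W : Type*} [Group G] [AddCommGroup W] [Module ℚ W]
    (ρ : Representation ℚ G W) (w : W) (a : G) : Subgroup G where
  carrier := {x | ∀ z, ρ (a * x * z) w = ρ (x * a * z) w}
  one_mem' := fun z => by simp
  mul_mem' := by
    intro x y hx hy z
    have h1 := hx (y * z)
    have h2 := congrArg (ρ x) (hy z)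
    rw [three_ap, three_ap] at h2
    have e1 : a * (x * y) * z = a * x * (y * z) := by group
    have e2 : x * a * (y * z) = x * (a * y * z) := by group
    have e3 : x * y * a * z = x * (y * a * z) := by group
    rw [e1, h1, e2, h2, e3]
  inv_mem' := by
    intro x hx z
    have h1 := congrArg (ρ x⁻¹) (hx (x⁻¹ * z))
    rw [three_ap, three_ap] at h1
    have e1 : x⁻¹ * (a * x * (x⁻¹ * z)) = x⁻¹ * a * z := by group
    have e2 : x⁻¹ * (x * a * (x⁻¹ * z)) = a * x⁻¹ * z := by group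
    rw [e1, e2] at h1
    exact h1.symm

private theorem threeCent_com {G W : Type*} [Group G] [AddCommGroup W] [Module ℚ W]
    (ρ : Representation ℚ G W) (w : W) (a x : G) : x ∈ threeCent ρ w a ↔ Com ρ w a x :=
  (three_com_iff ρ w a x).symm

private theorem threeCent_index {G W : Type*} [Group G] [AddCommGroup W] [Module ℚ W]
    {ρ : Representation ℚ G W} {w : W} {N : Subgroup G} (h : EAb ρ w 2 N) (hg : Glob ρ w N)
    (a : G) : (threeCent ρ w a).index ≤ 2 := by
  apply three_index_le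
  have key : ∀ x, x ∉ threeCent ρ w a → ∀ z, ρ (a * x * z) w = -ρ (x * a * z) w := by
    intro x hx z
    rcases hg _ (h.comm a x) with h1 | h1
    · exfalso
      apply hx
      intro z
      have h2 := h1 (x * a * z)
      rw [three_ap] at h2
      have e : a * x * a⁻¹ * x⁻¹ * (x * a * z) = a * x * z := by group
      rwa [e] at h2
    · have h2 := h1 (x * a * z)
      rw [three_ap] at h2
      have e : a * x * a⁻¹ * x⁻¹ * (x * a * z) = a * x * z := by group
      rwa [e] at h2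
  intro x y hx hy z
  have h1 := key x hx (x⁻¹ * y * z)
  have h2 := key y hy z
  have e1 : a * x * (x⁻¹ * y * z) = a * y * z := by group
  rw [e1, h2, neg_inj] at h1
  have h3 := congrArg (ρ x⁻¹) h1
  rw [three_ap, three_ap] at h3
  have e2 : x⁻¹ * (y * a * z) = x⁻¹ * y * a * z := by group
  have e3 : x⁻¹ * (x * a * (x⁻¹ * y * z)) = a * (x⁻¹ * y) * z := by group
  rw [e2, e3] at h3
  exact h3.symm

theorem exists_three {G W : Type*} [Group G] [Finite G] [AddCommGroup W] [Module ℚ W]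
    {ρ : Representation ℚ G W} {w : W} {N : Subgroup G} (h : EAb ρ w 2 N) (hg : Glob ρ w N)
    (hidx : 64 < (lineStab ρ w).index) :
    ∃ a b c : G, Inv ρ w a ∧ Inv ρ w b ∧ Inv ρ w c ∧ Com ρ w a b ∧ Com ρ w a c ∧ Com ρ w b c ∧
      a ∉ lineStab ρ w ∧ b ∉ lineStab ρ w ∧ a * b ∉ lineStab ρ w ∧ c ∉ lineStab ρ w ∧
      a * c ∉ lineStab ρ w ∧ b * c ∉ lineStab ρ w ∧ a * b * c ∉ lineStab ρ w := by
  have hNL : N ≤ lineStab ρ w := h.le_lineStab
  -- first step
  obtain ⟨a, -, haL, ha⟩ := exists_inv h hg ⊤ (lineStab ρ w) hNL (by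
    rw [Subgroup.relIndex_top_right]
    omega)
  -- second step
  set M₁ := threeAdj N (lineStab ρ w) hNL h.pow h.comm a with hM₁
  have hLM₁ : lineStab ρ w ≤ M₁ := threeAdj_le N _ hNL h.pow h.comm a
  have hNM₁ : N ≤ M₁ := hNL.trans hLM₁
  have hi1 : (lineStab ρ w).index ≤ 2 * M₁.index := threeAdj_index N _ hNL h.pow h.comm a
  have hca := threeCent_index h hg a
  have hr1 : 4 < M₁.relIndex (threeCent ρ w a) := by
    have h1 := three_index_mul M₁ (threeCent ρ w a)
    have h2 := Nat.mul_le_mul_left (M₁.relIndex (threeCent ρ w a)) hca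
    omega
  obtain ⟨b, hbC, hbM, hb⟩ := exists_inv h hg (threeCent ρ w a) M₁ hNM₁ hr1
  -- third step
  set M₂ := threeAdj N M₁ hNM₁ h.pow h.comm b with hM₂
  have hM₁₂ : M₁ ≤ M₂ := threeAdj_le N _ hNM₁ h.pow h.comm b
  have hi2 : M₁.index ≤ 2 * M₂.index := threeAdj_index N _ hNM₁ h.pow h.comm b
  have hcb := threeCent_index h hg b
  have hr2 : 4 < M₂.relIndex (threeCent ρ w a ⊓ threeCent ρ w b) := by
    have h1 := three_index_mul M₂ (threeCent ρ w a ⊓ threeCent ρ w b)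
    have h3 : (threeCent ρ w a ⊓ threeCent ρ w b).index ≤ 2 * 2 :=
      (Subgroup.index_inf_le).trans (Nat.mul_le_mul hca hcb)
    have h2 := Nat.mul_le_mul_left (M₂.relIndex (threeCent ρ w a ⊓ threeCent ρ w b)) h3
    omega
  obtain ⟨c, hcC, hcM, hc⟩ := exists_inv h hg _ M₂ (hNM₁.trans hM₁₂) hr2
  have haM₂ : a ∈ M₂ := hM₁₂ (threeAdj_self N _ hNL h.pow h.comm a)
  have hbM₂ : b ∈ M₂ := threeAdj_self N _ hNM₁ h.pow h.comm b
  refine ⟨a, b, c, ha, hb, hc, (threeCent_com ρ w a b).1 hbC, (threeCent_com ρ w a c).1 hcC.1,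
    (threeCent_com ρ w b c).1 hcC.2, haL, fun hb' => hbM (hLM₁ hb'), ?_,
    fun hc' => hcM (hM₁₂ (hLM₁ hc')), ?_, ?_, ?_⟩
  · intro hab
    apply hbM
    right
    have h1 := (lineStab ρ w).mul_mem ((lineStab ρ w).inv_mem (hNL (h.pow a))) hab
    have e : (a ^ 2)⁻¹ * (a * b) = a⁻¹ * b := by group
    rwa [e] at h1
  · intro hac
    apply hcM
    have h1 := M₂.mul_mem (M₂.inv_mem haM₂) (hM₁₂ (hLM₁ hac))
    rwa [inv_mul_cancel_left] at h1
  · intro hbc
    apply hcM
    have h1 := M₂.mul_mem (M₂.inv_mem hbM₂) (hM₁₂ (hLM₁ hbc))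
    rwa [inv_mul_cancel_left] at h1
  · intro habc
    apply hcM
    have h1 := M₂.mul_mem (M₂.inv_mem (M₂.mul_mem haM₂ hbM₂)) (hM₁₂ (hLM₁ habc))
    rwa [inv_mul_cancel_left] at h1

end Pool.Agent.Lib.MP_7ab245_nt.Solv
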