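import Pool.Agent.Lib.MP_7ab245_nt.Solv.GA.NonGlob
import Pool.Agent.Lib.MP_7ab245_nt.Solv.GA.Three
import Pool.Agent.Lib.MP_7ab245_nt.Solv.GA.Four

/-! # SOLVP-TwoCase: the case q = 2

PROOF. If `¬ Glob ρ w N`: `two_nonglob`. If `Glob ρ w N`: `exists_three` gives `a, b, c`. Let `U = span ℚ (range fun x => ρ x w)`, stable
under all `ρ g`; on `U` the restrictions `a', b', c'` of `ρ a`, `ρ b`, `ρ c` are involutions and commute (`Inv`, `Com` on the
generators: `Submodule.span_induction` / `LinearMap.ext_on`). Apply `four_of_three` on the type `U` to `⟨w, _⟩`: the hypothesis for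
`e ≠ 0` is one of the seven statements `s ∉ lineStab ρ w`. Put `u = mon a b c e`, `v = mon a b c f` (in `G`); the linear independence in
`U` gives the one in `W` (`LinearIndependent.map'` with `Submodule.ker_subtype`), and `ρ (u * v) w = ρ u (ρ v w)`. -/

set_option autoImplicit false

namespace Pool.Agent.Lib.MP_7ab245_nt.Solv

theorem two_case {G W : Type*} [Group G] [Finite G] [AddCommGroup W] [Module ℚ W]
    {ρ : Representation ℚ G W} {w : W} {N : Subgroup G} (h : EAb ρ w 2 N)
    (hidx : 64 < (lineStab ρ w).index) :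
    ∃ u v : G, LinearIndependent ℚ ![w, ρ u w, ρ v w, ρ (u * v) w] := by
  classical
  by_cases hg : Glob ρ w N
  swap
  · exact two_nonglob h hg (by omega)
  obtain ⟨a, b, c, ia, ib, ic, cab, cac, cbc, na, nb, nab, nc, nac, nbc, nabc⟩ :=
    exists_three h hg hidx
  let U : Submodule ℚ W := Submodule.span ℚ (Set.range fun x : G => ρ x w)
  have hstab : ∀ g : G, ∀ y ∈ U, ρ g y ∈ U := by
    intro g y hy
    refine Submodule.span_induction (p := fun y _ => ρ g y ∈ U) ?_ ?_ ?_ ?_ hy
    · rintro _ ⟨x, rfl⟩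
      refine Submodule.subset_span ⟨g * x, ?_⟩
      change ρ (g * x) w = ρ g (ρ x w)
      rw [map_mul]; rfl
    · rw [map_zero]; exact U.zero_mem
    · intro x y _ _ hx hy
      rw [map_add]; exact U.add_mem hx hy
    · intro r x _ hx
      rw [map_smul]; exact U.smul_mem r hx
  have hwU : w ∈ U := Submodule.subset_span ⟨1, by simp⟩
  -- an identity on the orbit is an identity on `U`
  have hext : ∀ S T : W →ₗ[ℚ] W, (∀ x : G, S (ρ x w) = T (ρ x w)) → ∀ y ∈ U, S y = T y := by
    intro S T hST y hy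
    refine Submodule.span_induction (p := fun y _ => S y = T y) ?_ ?_ ?_ ?_ hy
    · rintro _ ⟨x, rfl⟩
      exact hST x
    · rw [map_zero, map_zero]
    · intro x y _ _ hx hy
      rw [map_add, map_add, hx, hy]
    · intro r x _ hx
      rw [map_smul, map_smul, hx]
  let R : G → (U →ₗ[ℚ] U) := fun g => (ρ g).restrict (hstab g)
  have hR : ∀ (g : G) (y : U), ((R g y : U) : W) = ρ g y := fun g y => rfl
  have hinv : ∀ g : G, Inv ρ w g → R g * R g = 1 := by
    intro g hg
    ext y
    change ρ g (ρ g (y : W)) = y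
    exact hext (ρ g * ρ g) 1 (fun x => hg x) y y.2
  have hcom : ∀ g k : G, Com ρ w g k → R g * R k = R k * R g := by
    intro g k hgk
    ext y
    change ρ g (ρ k (y : W)) = ρ k (ρ g (y : W))
    exact hext (ρ g * ρ k) (ρ k * ρ g) (fun x => hgk x) y y.2
  have hRmul : ∀ g k : G, R (g * k) = R g * R k := by
    intro g k
    ext y
    change ρ (g * k) (y : W) = ρ g (ρ k (y : W))
    rw [map_mul]; rfl
  have hRone : R 1 = 1 := by
    ext y
    change ρ 1 (y : W) = y
    rw [map_one]; rfl
  have hRpow : ∀ (g : G) (k : ℕ), R (g ^ k) = R g ^ k := by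
    intro g k
    induction k with
    | zero => rw [pow_zero, pow_zero, hRone]
    | succ k ih => rw [pow_succ, pow_succ, hRmul, ih]
  have hRmon : ∀ e : Fin 3 → Fin 2, R (mon a b c e) = mon (R a) (R b) (R c) e := by
    intro e
    unfold mon
    rw [hRmul, hRmul, hRpow, hRpow, hRpow]
  -- the seven products
  have hmonL : ∀ e : Fin 3 → Fin 2, e ≠ 0 → mon a b c e ∉ lineStab ρ w := by
    intro e he
    have h01 : ∀ t : Fin 2, t = 0 ∨ t = 1 := by decide
    unfold mon
    rcases h01 (e 0) with h0 | h0 <;> rcases h01 (e 1) with h1 | h1 <;>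
      rcases h01 (e 2) with h2 | h2 <;> rw [h0, h1, h2]
    · exfalso
      apply he
      funext i
      fin_cases i
      · exact h0
      · exact h1
      · exact h2
    · simpa using nc
    · simpa using nb
    · simpa using nbc
    · simpa using na
    · simpa using nac
    · simpa using nab
    · simpa using nabc
  obtain ⟨e, f, hef⟩ := four_of_three (R a) (R b) (R c) (hinv a ia) (hinv b ib) (hinv c ic)
    (hcom a b cab) (hcom a c cac) (hcom b c cbc) (⟨w, hwU⟩ : U) (by
      intro e he
      rw [← hRmon]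
      have h1 := hmonL e he
      rw [mem_lineStab, not_or] at h1
      refine ⟨fun h2 => h1.1 ?_, fun h2 => h1.2 ?_⟩
      · exact congrArg Subtype.val h2
      · exact congrArg Subtype.val h2)
  refine ⟨mon a b c e, mon a b c f, ?_⟩
  have h3 := hef.map' U.subtype U.ker_subtype
  have h4 : ![w, ρ (mon a b c e) w, ρ (mon a b c f) w, ρ (mon a b c e * mon a b c f) w] =
      U.subtype ∘ ![(⟨w, hwU⟩ : U), mon (R a) (R b) (R c) e ⟨w, hwU⟩,
        mon (R a) (R b) (R c) f ⟨w, hwU⟩,
        mon (R a) (R b) (R c) e (mon (R a) (R b) (R c) f ⟨w, hwU⟩)] := by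
    funext i
    fin_cases i
    · rfl
    · change ρ (mon a b c e) w = ((mon (R a) (R b) (R c) e ⟨w, hwU⟩ : U) : W)
      rw [← hRmon]; rfl
    · change ρ (mon a b c f) w = ((mon (R a) (R b) (R c) f ⟨w, hwU⟩ : U) : W)
      rw [← hRmon]; rfl
    · change ρ (mon a b c e * mon a b c f) w =
        ((mon (R a) (R b) (R c) e (mon (R a) (R b) (R c) f ⟨w, hwU⟩) : U) : W)
      rw [← hRmon, ← hRmon, map_mul]; rfl
  rw [h4]
  exact h3

end Pool.Agent.Lib.MP_7ab245_nt.Solv
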