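import Pool.Agent.Lib.MP_7ab245_nt.Solv.GA.Orb
import Pool.Agent.Lib.MP_7ab245_nt.Solv.GA.Prep
import Pool.Agent.Lib.MP_7ab245_nt.Solv.GA.TwoCase
import Pool.Agent.Lib.MP_7ab245_nt.Solv.GA.OddCase

/-! # SOLVP-Asm: Theorem A

PROOF. `prep` gives `q, A', N` and `a ∈ A'`, `a ∉ L := lineStab ρ w`. Put `V = L.relIndex A'`, `n = card of the orbit`; `V ≤ n` (`relIndex_le`),
`1 ≤ n`. `hc` of `orbit_bound` for `A'` holds because `N ≤ L` (`x = 1` in the sign property).
Case `V ≤ 128`: `r = 2`, `g = ![1, a]`, `li_pair`, `orbit_bound` with `j = 1`, `a = ![a]`: `card ≤ 4 * (n * V) ≤ 512 * n`.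
Case `128 < V`: let `σ = ρ.comp A'.subtype : Representation ℚ A' W`, `N' = N.subgroupOf A'`. `EAb σ w q N'`, and
`(lineStab σ w) = L.subgroupOf A'`, so `(lineStab σ w).index = V`. `q = 2`: `two_case` gives `u, v ∈ A'`; `r = 4`, `g = ![1, u, v, u * v]`, `j = 2`:
`card ≤ 16 * (n * V ^ 2) ≤ 512 * n ^ 3`. `q ≠ 2`: `odd_case` gives `u`; `r = 3`, `g = ![1, u, u * u]`, `j = 1`: `card ≤ 8 * (n * V) ≤ 512 * n ^ 2`. -/

set_option autoImplicit false

namespace Pool.Agent.Lib.MP_7ab245_nt.Solv

theorem groupA' {G W : Type*} [Group G] [Finite G] [AddCommGroup W] [Module ℚ W]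
    (ρ : Representation ℚ G W) (w : W) (hw : w ≠ 0) (A : Subgroup G) [A.Normal]
    (hA1 : ∃ a ∈ A, ρ a w ≠ w ∧ ρ a w ≠ -w)
    (hA2 : ∀ a ∈ A, ∀ b ∈ A, ρ (a * b * a⁻¹ * b⁻¹) w = w ∨ ρ (a * b * a⁻¹ * b⁻¹) w = -w) :
    ∃ r : ℕ, 2 ≤ r ∧ r ≤ 4 ∧ ∃ g : Fin r → G, LinearIndependent ℚ (fun i => ρ (g i) w) ∧
      Nat.card (Set.range fun x : G => fun i => ρ (x * g i) w) ≤
        512 * Nat.card (Set.range fun x : G => ρ x w) ^ (r - 1) := by
  classical
  have hA1' : ∃ a ∈ A, a ∉ lineStab ρ w := by
    obtain ⟨a, ha, h1, h2⟩ := hA1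
    refine ⟨a, ha, ?_⟩
    rw [mem_lineStab]
    rintro (h | h)
    · exact h1 h
    · exact h2 h
  obtain ⟨q, A', N, hq, hA'n, hNA, hsgn, hpow, hcomm, a, haA, haL⟩ := prep ρ w A hA1' hA2
  haveI := hA'n
  have hNL : N ≤ lineStab ρ w := fun n hn => by
    have := hsgn n hn 1
    rw [map_one, Module.End.one_apply] at this
    exact this
  have hc : ∀ a ∈ A', ∀ b ∈ A', a * b * a⁻¹ * b⁻¹ ∈ lineStab ρ w :=
    fun a ha b hb => hNL (hcomm a ha b hb)
  have hVn : (lineStab ρ w).relIndex A' ≤ Nat.card (Set.range fun x : G => ρ x w) :=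
    relIndex_le ρ w A'
  have hn : 1 ≤ Nat.card (Set.range fun x : G => ρ x w) := by
    haveI : Finite (Set.range fun x : G => ρ x w) := Set.finite_range _
    haveI : Nonempty (Set.range fun x : G => ρ x w) := ⟨⟨_, ⟨1, rfl⟩⟩⟩
    exact Nat.card_pos
  obtain ⟨n, hndef⟩ : ∃ n, n = Nat.card (Set.range fun x : G => ρ x w) := ⟨_, rfl⟩
  obtain ⟨V, hVdef⟩ : ∃ V, V = (lineStab ρ w).relIndex A' := ⟨_, rfl⟩
  rw [← hndef, ← hVdef] at hVn
  rw [← hndef] at hn ⊢
  rcases le_or_gt V 128 with hV | hV
  · refine ⟨2, le_rfl, by norm_num, ![1, a], ?_, ?_⟩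
    · have h1 := li_pair ρ hw haL
      have h2 : (fun i : Fin 2 => ρ ((![1, a] : Fin 2 → G) i) w) = ![w, ρ a w] := by
        funext i
        fin_cases i <;> simp
      rw [h2]
      exact h1
    · have h1 := orbit_bound ρ w A' hc (j := 1) (r := 2) ![a]
        (by intro i; fin_cases i; simpa using haA) ![1, a] (by
          intro i
          fin_cases i
          · exact Subgroup.one_mem _
          · exact Subgroup.subset_closure ⟨0, rfl⟩)
      rw [← hndef, ← hVdef] at h1
      calc _ ≤ 2 ^ 2 * (n * V ^ 1) := h1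
        _ = 4 * V * n := by ring
        _ ≤ 512 * n := Nat.mul_le_mul_right _ (by omega)
        _ = 512 * n ^ (2 - 1) := by norm_num
  · let σ : Representation ℚ A' W := ρ.comp A'.subtype
    have hσ : ∀ x : A', σ x = ρ (x : G) := fun x => rfl
    have hEAb : EAb σ w q (N.subgroupOf A') := by
      refine ⟨hw, ?_, ?_, ?_⟩
      · intro n hn a
        rw [Subgroup.mem_subgroupOf] at hn
        exact hsgn _ hn a
      · intro a
        rw [Subgroup.mem_subgroupOf]
        simpa using hpow a a.2
      · intro a b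
        rw [Subgroup.mem_subgroupOf]
        simpa using hcomm a a.2 b b.2
    have hidx : (lineStab σ w).index = V := by
      rw [hVdef, Subgroup.relIndex]
      congr 1
    have hVpos : 0 < V := by omega
    by_cases hq2 : q = 2
    · subst hq2
      obtain ⟨u, v, huv⟩ := two_case hEAb (by rw [hidx]; omega)
      refine ⟨4, by norm_num, le_rfl, ![1, (u : G), (v : G), (u : G) * v], ?_, ?_⟩
      · have h2 : (fun i : Fin 4 => ρ ((![1, (u : G), (v : G), (u : G) * v] : Fin 4 → G) i) w) =
            ![w, σ u w, σ v w, σ (u * v) w] := by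
          funext i
          fin_cases i <;> simp [hσ]
        rw [h2]
        exact huv
      · have h1 := orbit_bound ρ w A' hc (j := 2) (r := 4) ![(u : G), (v : G)]
          (by
            intro i
            fin_cases i
            · exact u.2
            · exact v.2) ![1, (u : G), (v : G), (u : G) * v] (by
            have hu : (u : G) ∈ Subgroup.closure (Set.range ![(u : G), (v : G)]) :=
              Subgroup.subset_closure ⟨0, rfl⟩
            have hv : (v : G) ∈ Subgroup.closure (Set.range ![(u : G), (v : G)]) :=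
              Subgroup.subset_closure ⟨1, rfl⟩
            intro i
            fin_cases i
            · exact Subgroup.one_mem _
            · exact hu
            · exact hv
            · exact Subgroup.mul_mem _ hu hv)
        rw [← hndef, ← hVdef] at h1
        calc _ ≤ 2 ^ 4 * (n * V ^ 2) := h1
          _ ≤ 2 ^ 4 * (n * n ^ 2) := by gcongr
          _ ≤ 512 * n ^ (4 - 1) := by
            have : n * n ^ 2 = n ^ (4 - 1) := by ring
            rw [this]
            exact Nat.mul_le_mul_right _ (by norm_num)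
    · obtain ⟨u, hu⟩ := odd_case hEAb hq hq2 (by rw [hidx]; omega)
      refine ⟨3, by norm_num, by norm_num, ![1, (u : G), (u : G) * u], ?_, ?_⟩
      · have h2 : (fun i : Fin 3 => ρ ((![1, (u : G), (u : G) * u] : Fin 3 → G) i) w) =
            ![w, σ u w, σ (u * u) w] := by
          funext i
          fin_cases i <;> simp [hσ]
        rw [h2]
        exact hu
      · have h1 := orbit_bound ρ w A' hc (j := 1) (r := 3) ![(u : G)]
          (by
            intro i
            fin_cases i
            exact u.2) ![1, (u : G), (u : G) * u] (by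
            have hu : (u : G) ∈ Subgroup.closure (Set.range ![(u : G)]) :=
              Subgroup.subset_closure ⟨0, rfl⟩
            intro i
            fin_cases i
            · exact Subgroup.one_mem _
            · exact hu
            · exact Subgroup.mul_mem _ hu hu)
        rw [← hndef, ← hVdef] at h1
        calc _ ≤ 2 ^ 3 * (n * V ^ 1) := h1
          _ ≤ 2 ^ 3 * (n * n ^ 1) := by gcongr
          _ ≤ 512 * n ^ (3 - 1) := by
            have : n * n ^ 1 = n ^ (3 - 1) := by ring
            rw [this]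
            exact Nat.mul_le_mul_right _ (by norm_num)

end Pool.Agent.Lib.MP_7ab245_nt.Solv
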