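import Mathlib

/-! # SOLVP: definitions for Theorem A (finite groups acting on a rational vector space)

Notation: `ρ` a representation of `G` on a `ℚ`-vector space, `w` a vector. -/

set_option autoImplicit false

namespace Pool.Agent.Lib.MP_7ab245_nt.Solv

section
variable {G W : Type*} [Group G] [AddCommGroup W] [Module ℚ W]

/-- the stabiliser of the pair `{w, -w}` -/
def lineStab (ρ : Representation ℚ G W) (w : W) : Subgroup G where
  carrier := {g | ρ g w = w ∨ ρ g w = -w}
  one_mem' := by left; simp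
  mul_mem' := by
    intro a b ha hb
    rcases ha with ha | ha <;> rcases hb with hb | hb <;> simp [map_mul, ha, hb]
  inv_mem' := by
    intro a ha
    rcases ha with ha | ha
    · left
      calc ρ a⁻¹ w = ρ a⁻¹ (ρ a w) := by rw [ha]
        _ = w := by rw [← Module.End.mul_apply, ← map_mul]; simp
    · right
      calc ρ a⁻¹ w = -ρ a⁻¹ (ρ a w) := by rw [ha, map_neg, neg_neg]
        _ = -w := by rw [← Module.End.mul_apply, ← map_mul]; simp

theorem mem_lineStab (ρ : Representation ℚ G W) (w : W) (g : G) :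
    g ∈ lineStab ρ w ↔ ρ g w = w ∨ ρ g w = -w := Iff.rfl

/-- The situation after the preparation: the group (called `G` here, it is the subgroup `A` of the
big group) is an elementary abelian `q`-group modulo `N`, and `N` acts by signs on the orbit of
`w`. -/
structure EAb (ρ : Representation ℚ G W) (w : W) (q : ℕ) (N : Subgroup G) : Prop where
  ne : w ≠ 0
  sgn : ∀ n ∈ N, ∀ a : G, ρ n (ρ a w) = ρ a w ∨ ρ n (ρ a w) = -ρ a w
  pow : ∀ a : G, a ^ q ∈ N
  comm : ∀ a b : G, a * b * a⁻¹ * b⁻¹ ∈ N

/-- `N` acts on the whole orbit of `w` by one sign -/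
def Glob (ρ : Representation ℚ G W) (w : W) (N : Subgroup G) : Prop :=
  ∀ n ∈ N, (∀ x : G, ρ n (ρ x w) = ρ x w) ∨ (∀ x : G, ρ n (ρ x w) = -ρ x w)

/-- `a` acts as an involution (or trivially) on the orbit of `w` -/
def Inv (ρ : Representation ℚ G W) (w : W) (a : G) : Prop :=
  ∀ x : G, ρ a (ρ a (ρ x w)) = ρ x w

/-- `a` and `b` commute on the orbit of `w` -/
def Com (ρ : Representation ℚ G W) (w : W) (a b : G) : Prop :=
  ∀ x : G, ρ a (ρ b (ρ x w)) = ρ b (ρ a (ρ x w))

theorem EAb.le_lineStab {ρ : Representation ℚ G W} {w : W} {q : ℕ} {N : Subgroup G}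
    (h : EAb ρ w q N) : N ≤ lineStab ρ w := by
  intro n hn
  have := h.sgn n hn 1
  rw [map_one, Module.End.one_apply] at this
  exact this

end

end Pool.Agent.Lib.MP_7ab245_nt.Solv
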