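import Mathlib

/-! # SOLVP-Comb8: subsets of `F₂³` which are not contained in an affine plane -/

set_option autoImplicit false

namespace Pool.Agent.Lib.MP_7ab245_nt.Solv

/-- the pairing of `F₂³` -/
def par (i e : Fin 3 → Fin 2) : Fin 2 := i 0 * e 0 + i 1 * e 1 + i 2 * e 2

private theorem c8bool : ∀ p0 p1 p2 p3 p4 p5 p6 p7 : Bool,
    ((p0 || p1 || p2 || p3) && (p4 || p5 || p6 || p7) &&
     (p0 || p1 || p4 || p5) && (p2 || p3 || p6 || p7) &&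
     (p0 || p2 || p4 || p6) && (p1 || p3 || p5 || p7) &&
     (p0 || p1 || p6 || p7) && (p2 || p3 || p4 || p5) &&
     (p0 || p2 || p5 || p7) && (p1 || p3 || p4 || p6) &&
     (p0 || p3 || p4 || p7) && (p1 || p2 || p5 || p6) &&
     (p0 || p3 || p5 || p6) && (p1 || p2 || p4 || p7)) = true →
    (((p0 || p1) && (p2 || p3) && (p4 || p5) && (p6 || p7)) ||
     ((p0 || p2) && (p1 || p3) && (p4 || p6) && (p5 || p7)) ||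
     ((p0 || p4) && (p1 || p5) && (p2 || p6) && (p3 || p7)) ||
     ((p0 || p3) && (p1 || p2) && (p4 || p7) && (p5 || p6)) ||
     ((p0 || p5) && (p1 || p4) && (p2 || p7) && (p3 || p6)) ||
     ((p0 || p6) && (p2 || p4) && (p1 || p7) && (p3 || p5)) ||
     ((p0 || p7) && (p1 || p6) && (p3 || p4) && (p2 || p5))) = true := by
  decide

private theorem c8ex {Ω : Set (Fin 3 → Fin 2)} {e : Fin 3 → Fin 2} {s : Fin 2}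
    (h : ∃ i ∈ Ω, par i e = s) {Q : Prop}
    (hQ : ∀ a b c : Fin 2, par ![a, b, c] e = s → ![a, b, c] ∈ Ω → Q) : Q := by
  obtain ⟨i, hi, he⟩ := h
  have e1 : i = ![i 0, i 1, i 2] := by
    funext k
    fin_cases k <;> rfl
  exact hQ (i 0) (i 1) (i 2) (by rw [← e1]; exact he) (by rw [← e1]; exact hi)

private theorem c8fin {Ω : Set (Fin 3 → Fin 2)} (e f a0 b0 a1 b1 a2 b2 a3 b3 : Fin 3 → Fin 2)
    (h : ((a0 ∈ Ω ∨ b0 ∈ Ω) ∧ (a1 ∈ Ω ∨ b1 ∈ Ω) ∧ (a2 ∈ Ω ∨ b2 ∈ Ω)) ∧ (a3 ∈ Ω ∨ b3 ∈ Ω))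
    (hd : (par a0 e = 0 ∧ par a0 f = 0 ∧ par b0 e = 0 ∧ par b0 f = 0) ∧
      (par a1 e = 0 ∧ par a1 f = 1 ∧ par b1 e = 0 ∧ par b1 f = 1) ∧
      (par a2 e = 1 ∧ par a2 f = 0 ∧ par b2 e = 1 ∧ par b2 f = 0) ∧
      (par a3 e = 1 ∧ par a3 f = 1 ∧ par b3 e = 1 ∧ par b3 f = 1)) :
    ∃ e f : Fin 3 → Fin 2, ∀ s t : Fin 2, ∃ i ∈ Ω, par i e = s ∧ par i f = t := by
  obtain ⟨⟨h0, h1, h2⟩, h3⟩ := h
  obtain ⟨d0, d1, d2, d3⟩ := hd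
  refine ⟨e, f, Fin.forall_fin_two.2 ⟨Fin.forall_fin_two.2 ⟨?_, ?_⟩,
    Fin.forall_fin_two.2 ⟨?_, ?_⟩⟩⟩
  · rcases h0 with h | h
    exacts [⟨_, h, d0.1, d0.2.1⟩, ⟨_, h, d0.2.2.1, d0.2.2.2⟩]
  · rcases h1 with h | h
    exacts [⟨_, h, d1.1, d1.2.1⟩, ⟨_, h, d1.2.2.1, d1.2.2.2⟩]
  · rcases h2 with h | h
    exacts [⟨_, h, d2.1, d2.2.1⟩, ⟨_, h, d2.2.2.1, d2.2.2.2⟩]
  · rcases h3 with h | h
    exacts [⟨_, h, d3.1, d3.2.1⟩, ⟨_, h, d3.2.2.1, d3.2.2.2⟩]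

theorem comb8 (Ω : Set (Fin 3 → Fin 2))
    (h : ∀ e : Fin 3 → Fin 2, e ≠ 0 → (∃ i ∈ Ω, par i e = 0) ∧ ∃ i ∈ Ω, par i e = 1) :
    ∃ e f : Fin 3 → Fin 2, ∀ s t : Fin 2, ∃ i ∈ Ω, par i e = s ∧ par i f = t := by
  classical
  have hc := c8bool (decide (![0, 0, 0] ∈ Ω)) (decide (![0, 0, 1] ∈ Ω)) (decide (![0, 1, 0] ∈ Ω))
    (decide (![0, 1, 1] ∈ Ω)) (decide (![1, 0, 0] ∈ Ω)) (decide (![1, 0, 1] ∈ Ω))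
    (decide (![1, 1, 0] ∈ Ω)) (decide (![1, 1, 1] ∈ Ω))
  simp only [Bool.or_eq_true, Bool.and_eq_true, decide_eq_true_eq, and_assoc, or_assoc] at hc
  have key := hc ⟨c8ex (h ![1, 0, 0] (by decide)).1 ?_, c8ex (h ![1, 0, 0] (by decide)).2 ?_,
    c8ex (h ![0, 1, 0] (by decide)).1 ?_, c8ex (h ![0, 1, 0] (by decide)).2 ?_,
    c8ex (h ![0, 0, 1] (by decide)).1 ?_, c8ex (h ![0, 0, 1] (by decide)).2 ?_,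
    c8ex (h ![1, 1, 0] (by decide)).1 ?_, c8ex (h ![1, 1, 0] (by decide)).2 ?_,
    c8ex (h ![1, 0, 1] (by decide)).1 ?_, c8ex (h ![1, 0, 1] (by decide)).2 ?_,
    c8ex (h ![0, 1, 1] (by decide)).1 ?_, c8ex (h ![0, 1, 1] (by decide)).2 ?_,
    c8ex (h ![1, 1, 1] (by decide)).1 ?_, c8ex (h ![1, 1, 1] (by decide)).2 ?_⟩
  · rcases key with k | k | k | k | k | k | k
    · exact c8fin ![1, 0, 0] ![0, 1, 0] _ _ _ _ _ _ _ _ ⟨⟨k.1, k.2.1, k.2.2.1⟩, k.2.2.2⟩ (by decide)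
    · exact c8fin ![1, 0, 0] ![0, 0, 1] _ _ _ _ _ _ _ _ ⟨⟨k.1, k.2.1, k.2.2.1⟩, k.2.2.2⟩ (by decide)
    · exact c8fin ![0, 1, 0] ![0, 0, 1] _ _ _ _ _ _ _ _ ⟨⟨k.1, k.2.1, k.2.2.1⟩, k.2.2.2⟩ (by decide)
    · exact c8fin ![1, 0, 0] ![0, 1, 1] _ _ _ _ _ _ _ _ ⟨⟨k.1, k.2.1, k.2.2.1⟩, k.2.2.2⟩ (by decide)
    · exact c8fin ![0, 1, 0] ![1, 0, 1] _ _ _ _ _ _ _ _ ⟨⟨k.1, k.2.1, k.2.2.1⟩, k.2.2.2⟩ (by decide)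
    · exact c8fin ![0, 0, 1] ![1, 1, 0] _ _ _ _ _ _ _ _ ⟨⟨k.1, k.2.1, k.2.2.1⟩, k.2.2.2⟩ (by decide)
    · exact c8fin ![1, 1, 0] ![0, 1, 1] _ _ _ _ _ _ _ _ ⟨⟨k.1, k.2.1, k.2.2.1⟩, k.2.2.2⟩ (by decide)
  all_goals
    simp only [Fin.forall_fin_two]
    refine ⟨⟨⟨?_, ?_⟩, ⟨?_, ?_⟩⟩, ⟨⟨?_, ?_⟩, ⟨?_, ?_⟩⟩⟩ <;>
      first
        | (intro h0; exact absurd h0 (by decide))
        | (intro _ h1; simp only [h1, true_or, or_true])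

end Pool.Agent.Lib.MP_7ab245_nt.Solv
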