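import Pool.Agent.Lib.MP_7ab245_nt.Solv.GA.Base

/-! # SOLVP-ExInv: an involution outside a subgroup (q = 2)

PROOF. For `n ∈ N` there is a sign `s n = ± 1` with `ρ n (ρ x w) = s n • ρ x w` for all `x` (`Glob`), and
`s (n n') = s n * s n'`. For `g : G` put `κ g = s (g ^ 2)`; `κ g = 1` iff `Inv ρ w g`. For `g, k : G`:
`(g k) ^ 2 = g k g k = g (g k [k⁻¹, g⁻¹]) k = ...`, on the orbit `κ (g k) = κ g * κ k * β g k`, where `β g k = s (k g k⁻¹ g⁻¹) = ± 1`
(`ρ k (ρ g y) = β g k • ρ g (ρ k y)` for `y` in the orbit; note that the orbit is stable under `ρ`), and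
`β (g g') k = β g k * β g' k`.
Choose `x ∈ B \ M`; `y ∈ B`, `y ∉ M`, `x⁻¹ y ∉ M`; `z ∈ B` with `z ∉ M`, `x⁻¹ z ∉ M`, `y⁻¹ z ∉ M`, `(x y)⁻¹ z ∉ M` (possible since `B` is not
covered by at most four cosets of `M`: `4 < M.relIndex B`; e.g. with the injection of `B / (M ⊓ B)` into ..., or
`M.relIndex B = Nat.card (B ⧸ M.subgroupOf B)` and a map from a four element set which would be onto).
Since squares and commutators lie in `N ≤ M` (so `M` is normal and `G / M` is an elementary abelian 2-group), none of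
`x, y, x y, z, x z, y z, x y z` is in `M`; all of them are in `B`. Suppose that none of the seven is an involution in the sense
of `Inv`, so `κ = -1` for all seven. `κ (x y) = κ x κ y β x y` gives `β x y = -1`, similarly `β x z = β y z = -1`;
`κ (x y z) = κ (x y) κ z β (x y) z = (-1)(-1)(-1)(-1) = 1`, contradiction. -/

set_option autoImplicit false

namespace Pool.Agent.Lib.MP_7ab245_nt.Solv

/-- a subgroup of relative index `> 4` is not covered by four cosets -/
private theorem avoid {G : Type*} [Group G] [Finite G] (B M : Subgroup G)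
    (hBM : 4 < M.relIndex B) (c : Fin 4 → B) : ∃ z : B, ∀ i, ((c i : G))⁻¹ * z ∉ M := by
  by_contra hcon
  push Not at hcon
  have hsurj : Function.Surjective (fun i : Fin 4 => (QuotientGroup.mk (c i) : B ⧸ M.subgroupOf B)) := by
    intro q
    induction q using QuotientGroup.induction_on with
    | H z =>
      obtain ⟨i, hi⟩ := hcon z
      refine ⟨i, ?_⟩
      rw [QuotientGroup.eq]
      rw [Subgroup.mem_subgroupOf]
      exact hi
  have h1 := Nat.card_le_card_of_surjective _ hsurj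
  rw [Nat.card_fin] at h1
  have h2 : M.relIndex B = Nat.card (B ⧸ M.subgroupOf B) := rfl
  omega

theorem exists_inv {G W : Type*} [Group G] [Finite G] [AddCommGroup W] [Module ℚ W]
    {ρ : Representation ℚ G W} {w : W} {N : Subgroup G} (h : EAb ρ w 2 N) (hg : Glob ρ w N)
    (B M : Subgroup G) (hNM : N ≤ M) (hBM : 4 < M.relIndex B) :
    ∃ b ∈ B, b ∉ M ∧ Inv ρ w b := by
  have hmul : ∀ (a b : G) (v : W), ρ a (ρ b v) = ρ (a * b) v := by
    intro a b v
    rw [map_mul, Module.End.mul_apply]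
  -- signs
  have hs : ∀ n : G, ∃ s : ℚ, n ∈ N → (s = 1 ∨ s = -1) ∧ ∀ x : G, ρ n (ρ x w) = s • ρ x w := by
    intro n
    by_cases hn : n ∈ N
    · rcases hg n hn with h1 | h1
      · exact ⟨1, fun _ => ⟨Or.inl rfl, fun x => by rw [h1 x, one_smul]⟩⟩
      · exact ⟨-1, fun _ => ⟨Or.inr rfl, fun x => by rw [h1 x, neg_one_smul]⟩⟩
    · exact ⟨1, fun h => absurd h hn⟩
  choose s hs using hs
  have hN2 : ∀ a : G, a * a ∈ N := fun a => by
    have := h.pow a
    rwa [pow_two] at this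
  have hκ : ∀ a x : G, ρ a (ρ a (ρ x w)) = s (a * a) • ρ x w := by
    intro a x
    rw [hmul a a, (hs _ (hN2 a)).2 x]
  have hβ : ∀ g k x : G, ρ k (ρ g (ρ x w)) = s (k * g * k⁻¹ * g⁻¹) • ρ g (ρ k (ρ x w)) := by
    intro g k x
    have h1 := (hs _ (h.comm k g)).2 (g * (k * x))
    rw [← hmul g, ← hmul k x] at h1
    rw [← h1, hmul g k, hmul (k * g * k⁻¹ * g⁻¹), hmul k g, hmul, hmul]
    congr 2
    group
  have hne : ∀ x : G, ρ x w ≠ 0 := by
    intro x hx
    apply h.ne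
    have h1 : ρ x⁻¹ (ρ x w) = w := by
      rw [hmul, inv_mul_cancel, map_one, Module.End.one_apply]
    rw [← h1, hx, map_zero]
  have hinj : ∀ (x : G) (p q : ℚ), p • ρ x w = q • ρ x w → p = q := fun x p q hpq =>
    smul_left_injective ℚ (hne x) hpq
  -- the three relations
  have hκmul : ∀ g k : G, s ((g * k) * (g * k)) = s (k * g * k⁻¹ * g⁻¹) * (s (k * k) * s (g * g)) := by
    intro g k
    apply hinj 1
    have e0 : ρ k (ρ 1 w) = ρ (k * 1) w := hmul k 1 w
    have e1 : ρ (g * k) (ρ (g * k) (ρ 1 w)) =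
        (s (k * g * k⁻¹ * g⁻¹) * (s (k * k) * s (g * g))) • ρ 1 w := by
      rw [← hmul g k, ← hmul g k, e0, hβ g k (k * 1), ← e0, hκ k 1]
      simp only [map_smul]
      rw [hκ g 1, smul_smul, smul_smul, mul_assoc]
    rw [← hκ (g * k) 1, e1]
  have hβmul : ∀ g g' k : G, s (k * (g * g') * k⁻¹ * (g * g')⁻¹) =
      s (k * g * k⁻¹ * g⁻¹) * s (k * g' * k⁻¹ * g'⁻¹) := by
    intro g g' k
    apply hinj (g * (g' * (k * 1)))
    have e0 : ρ g' (ρ 1 w) = ρ (g' * 1) w := hmul g' 1 w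
    have e1 := hβ (g * g') k 1
    rw [← hmul g g', ← hmul g g', e0, hβ g k (g' * 1), ← e0, hβ g' k 1] at e1
    simp only [map_smul] at e1
    rw [smul_smul, hmul k, hmul g', hmul g] at e1
    exact e1.symm
  -- `κ = -1` if not an involution
  have hκneg : ∀ a : G, ¬ Inv ρ w a → s (a * a) = -1 := by
    intro a ha
    rcases (hs _ (hN2 a)).1 with h1 | h1
    · exfalso
      apply ha
      intro x
      rw [hκ a x, h1, one_smul]
    · exact h1
  by_contra hcon
  push Not at hcon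
  have hκB : ∀ b ∈ B, b ∉ M → s (b * b) = -1 := fun b hb hbM => hκneg b (hcon b hb hbM)
  have hM2 : ∀ a : G, a * a ∈ M := fun a => hNM (hN2 a)
  obtain ⟨x, hx⟩ := avoid B M hBM (fun _ => 1)
  have hxM : (x : G) ∉ M := by simpa using hx 0
  obtain ⟨y, hy⟩ := avoid B M hBM ![1, x, x, x]
  have hyM : (y : G) ∉ M := by simpa using hy 0
  have hxyM : (x : G)⁻¹ * y ∉ M := by simpa using hy 1
  obtain ⟨z, hz⟩ := avoid B M hBM ![1, x, y, x * y]
  have hzM : (z : G) ∉ M := by simpa using hz 0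
  have hxzM : (x : G)⁻¹ * z ∉ M := by simpa using hz 1
  have hyzM : (y : G)⁻¹ * z ∉ M := by simpa using hz 2
  have hxyzM : ((x : G) * y)⁻¹ * z ∉ M := by simpa using hz 3
  have hinvmul : ∀ a b : G, a⁻¹ * b ∉ M → a * b ∉ M := by
    intro a b h1 h2
    apply h1
    have h3 : a⁻¹ * b = (a * a)⁻¹ * (a * b) := by group
    rw [h3]
    exact M.mul_mem (M.inv_mem (hM2 a)) h2
  have kx := hκB x x.2 hxM
  have ky := hκB y y.2 hyM
  have kz := hκB z z.2 hzM
  have kxy := hκB (x * y) (B.mul_mem x.2 y.2) (hinvmul _ _ hxyM)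
  have kxz := hκB (x * z) (B.mul_mem x.2 z.2) (hinvmul _ _ hxzM)
  have kyz := hκB (y * z) (B.mul_mem y.2 z.2) (hinvmul _ _ hyzM)
  have kxyz := hκB (x * y * z) (B.mul_mem (B.mul_mem x.2 y.2) z.2) (hinvmul _ _ hxyzM)
  have e1 := kxz
  rw [hκmul, kx, kz] at e1
  have e2 := kyz
  rw [hκmul, ky, kz] at e2
  rw [hκmul, kxy, kz, hβmul] at kxyz
  have e1' : s (z * x * (z : G)⁻¹ * (x : G)⁻¹) = -1 := by linarith
  have e2' : s (z * y * (z : G)⁻¹ * (y : G)⁻¹) = -1 := by linarith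
  rw [e1', e2'] at kxyz
  norm_num at kxyz

end Pool.Agent.Lib.MP_7ab245_nt.Solv
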