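import Pool.Agent.Lib.MP_7ab245_nt.Solv.GA.Base

/-! # SOLVP-Lin: linear independence from signs

PROOFS. `li_pair`: if `ρ a w = c • w` then `c ^ orderOf a = 1` (`w ≠ 0`), `c` rational, so `c = 1` or `c = -1`; use
`LinearIndependent.pair_iff` (a dependence `s w + t (ρ a w) = 0` with `t = 0` gives `s = 0`).
`li_of_signs`: suppose `∑ c_i v_i = 0` with `c ≠ 0`; choose such a relation with the smallest number of nonzero
coefficients. If only `c_i ≠ 0` then `v i = 0`, contradiction. Otherwise `c_i ≠ 0`, `c_j ≠ 0`, `i ≠ j`; let `T` separate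
`i` and `j`, `T v_l = ε_l v_l`; applying `T - ε_i` gives the relation `∑ c_l (ε_l - ε_i) v_l = 0`, in which the coefficient of
`j` is `± 2 c_j ≠ 0`, that of `i` is `0` and the support did not grow. (Or induction on `k`, or
`Module.End.eigenspaces_iSupIndep` repeatedly.) `li_of_signs` is proved for an arbitrary family, one may do
induction on the finset of the support.
`li_22`: from a relation `c0 x1 + c1 y1 + c2 x2 + c3 y2 = 0` apply `T` and add / subtract:
`c0 x1 + c2 x2 = 0 = c1 y1 + c3 y2`. -/

set_option autoImplicit false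

namespace Pool.Agent.Lib.MP_7ab245_nt.Solv

theorem li_pair {G W : Type*} [Group G] [Finite G] [AddCommGroup W] [Module ℚ W]
    (ρ : Representation ℚ G W) {w : W} (hw : w ≠ 0) {a : G} (ha : a ∉ lineStab ρ w) :
    LinearIndependent ℚ ![w, ρ a w] := by
  rw [LinearIndependent.pair_iff]
  intro s t hst
  by_cases ht : t = 0
  · subst ht
    rw [zero_smul, add_zero] at hst
    exact ⟨(smul_eq_zero.1 hst).resolve_right hw, rfl⟩
  · exfalso
    set c : ℚ := -(s / t) with hc
    have h1 : ρ a w = c • w := by
      have h2 : t • ρ a w = -(s • w) := by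
        rw [add_comm] at hst
        exact eq_neg_of_add_eq_zero_left hst
      have h3 : ρ a w = t⁻¹ • (t • ρ a w) := by rw [smul_smul, inv_mul_cancel₀ ht, one_smul]
      rw [h3, h2, hc, smul_neg, smul_smul, neg_smul, div_eq_inv_mul]
    have h2 : ∀ n : ℕ, ρ (a ^ n) w = c ^ n • w := by
      intro n
      induction n with
      | zero => simp
      | succ n ih =>
        rw [pow_succ', map_mul, Module.End.mul_apply, ih, map_smul, h1, smul_smul, pow_succ]
    have h3 := h2 (orderOf a)
    rw [pow_orderOf_eq_one, map_one, Module.End.one_apply] at h3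
    have h4 : c ^ orderOf a = 1 := by
      have h5 : (c ^ orderOf a - 1) • w = 0 := by rw [sub_smul, one_smul, ← h3, sub_self]
      exact sub_eq_zero.1 ((smul_eq_zero.1 h5).resolve_right hw)
    have h5 : |c| ^ orderOf a = 1 := by rw [← abs_pow, h4, abs_one]
    have h6 : |c| = 1 := (pow_eq_one_iff_of_nonneg (abs_nonneg c) (orderOf_pos a).ne').1 h5
    apply ha
    rw [mem_lineStab, h1]
    rcases eq_or_eq_neg_of_abs_eq h6 with h7 | h7
    · left; rw [h7, one_smul]
    · right; rw [h7, neg_smul, one_smul]

theorem li_of_signs {W : Type*} [AddCommGroup W] [Module ℚ W] {k : ℕ} (v : Fin k → W)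
    (hv : ∀ i, v i ≠ 0) (S : Set (W →ₗ[ℚ] W)) (hS : ∀ T ∈ S, ∀ i, T (v i) = v i ∨ T (v i) = -v i)
    (hsep : ∀ i j, i ≠ j → ∃ T ∈ S, (T (v i) = v i ∧ T (v j) = -v j) ∨
      (T (v i) = -v i ∧ T (v j) = v j)) : LinearIndependent ℚ v := by
  classical
  have key : ∀ (n : ℕ) (c : Fin k → ℚ), (Finset.univ.filter fun i => c i ≠ 0).card ≤ n →
      ∑ i, c i • v i = 0 → ∀ i, c i = 0 := by
    intro n
    induction n with
    | zero =>
      intro c hc _ i
      by_contra hi
      have h1 : i ∈ Finset.univ.filter fun i => c i ≠ 0 := by simp [hi]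
      rw [Finset.card_eq_zero.1 (Nat.le_zero.1 hc)] at h1
      exact absurd h1 (Finset.notMem_empty i)
    | succ n ih =>
      intro c hc hsum i
      by_contra hi
      by_cases hj : ∃ j, j ≠ i ∧ c j ≠ 0
      · obtain ⟨j, hji, hj⟩ := hj
        obtain ⟨T, hT, hTs⟩ := hsep i j (Ne.symm hji)
        have hTv : ∀ l, ∃ e : ℚ, T (v l) = e • v l := by
          intro l
          rcases hS T hT l with h | h
          · exact ⟨1, by rw [h, one_smul]⟩
          · exact ⟨-1, by rw [h, neg_smul, one_smul]⟩
        choose e he using hTv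
        have hval : ∀ l, ∀ x : ℚ, T (v l) = x • v l → e l = x := by
          intro l x hx
          have h1 : (e l - x) • v l = 0 := by rw [sub_smul, ← he, ← hx, sub_self]
          exact sub_eq_zero.1 ((smul_eq_zero.1 h1).resolve_right (hv l))
        have hne : e j - e i ≠ 0 := by
          rcases hTs with ⟨h1, h2⟩ | ⟨h1, h2⟩
          · have h3 := hval i 1 (by rw [h1, one_smul])
            have h4 := hval j (-1) (by rw [h2, neg_smul, one_smul])
            rw [h3, h4]; norm_num
          · have h3 := hval i (-1) (by rw [h1, neg_smul, one_smul])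
            have h4 := hval j 1 (by rw [h2, one_smul])
            rw [h3, h4]; norm_num
        have h1 : ∑ l, (c l * (e l - e i)) • v l = 0 := by
          have h2 : ∑ l, (c l * e l) • v l = 0 := by
            have h3 := congrArg T hsum
            rw [map_sum, map_zero] at h3
            rw [← h3]
            refine Finset.sum_congr rfl fun l _ => ?_
            rw [map_smul, he, smul_smul]
          have h3 : ∑ l, (c l * e i) • v l = 0 := by
            have h4 : ∑ l, (c l * e i) • v l = e i • ∑ l, c l • v l := by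
              rw [Finset.smul_sum]
              refine Finset.sum_congr rfl fun l _ => ?_
              rw [smul_smul, mul_comm]
            rw [h4, hsum, smul_zero]
          have h4 : ∀ l, (c l * (e l - e i)) • v l = (c l * e l) • v l - (c l * e i) • v l := by
            intro l
            rw [mul_sub, sub_smul]
          rw [Finset.sum_congr rfl fun l _ => h4 l, Finset.sum_sub_distrib, h2, h3, sub_zero]
        have h2 : (Finset.univ.filter fun l => c l * (e l - e i) ≠ 0).card ≤ n := by
          have h3 : (Finset.univ.filter fun l => c l * (e l - e i) ≠ 0) ⊆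
              (Finset.univ.filter fun l => c l ≠ 0).erase i := by
            intro l hl
            rw [Finset.mem_filter] at hl
            rw [Finset.mem_erase, Finset.mem_filter]
            refine ⟨?_, Finset.mem_univ _, left_ne_zero_of_mul hl.2⟩
            rintro rfl
            exact hl.2 (by rw [sub_self, mul_zero])
          have h4 := Finset.card_le_card h3
          rw [Finset.card_erase_of_mem (by simp [hi])] at h4
          omega
        have h3 := ih _ h2 h1 j
        rcases mul_eq_zero.1 h3 with h4 | h4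
        · exact hj h4
        · exact hne h4
      · push Not at hj
        rw [Finset.sum_eq_single i (fun j _ hji => by rw [hj j hji, zero_smul])
          (fun h => absurd (Finset.mem_univ i) h)] at hsum
        rcases smul_eq_zero.1 hsum with h | h
        · exact hi h
        · exact hv i h
  rw [Fintype.linearIndependent_iff]
  intro c hc
  exact key _ c le_rfl hc

theorem li_22 {W : Type*} [AddCommGroup W] [Module ℚ W] (T : W →ₗ[ℚ] W) {x₁ x₂ y₁ y₂ : W}
    (h1 : T x₁ = x₁) (h2 : T x₂ = x₂) (h3 : T y₁ = -y₁) (h4 : T y₂ = -y₂)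
    (hx : LinearIndependent ℚ ![x₁, x₂]) (hy : LinearIndependent ℚ ![y₁, y₂]) :
    LinearIndependent ℚ ![x₁, y₁, x₂, y₂] := by
  rw [LinearIndependent.pair_iff] at hx hy
  rw [Fintype.linearIndependent_iff]
  intro g hg
  have e1 : g 0 • x₁ + g 1 • y₁ + g 2 • x₂ + g 3 • y₂ = 0 := by
    rw [Fin.sum_univ_four] at hg
    exact hg
  have e2 : g 0 • x₁ - g 1 • y₁ + g 2 • x₂ - g 3 • y₂ = 0 := by
    have h := congrArg T e1
    rw [map_zero, map_add, map_add, map_add, map_smul, map_smul, map_smul, map_smul, h1, h2, h3,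
      h4] at h
    rw [← h, smul_neg, smul_neg]
    abel
  have e3 : (2 : ℚ) • (g 0 • x₁ + g 2 • x₂) = 0 := by
    have h : (g 0 • x₁ + g 1 • y₁ + g 2 • x₂ + g 3 • y₂) +
        (g 0 • x₁ - g 1 • y₁ + g 2 • x₂ - g 3 • y₂) = 0 := by rw [e1, e2, add_zero]
    rw [← h, two_smul]
    abel
  have e4 : (2 : ℚ) • (g 1 • y₁ + g 3 • y₂) = 0 := by
    have h : (g 0 • x₁ + g 1 • y₁ + g 2 • x₂ + g 3 • y₂) -
        (g 0 • x₁ - g 1 • y₁ + g 2 • x₂ - g 3 • y₂) = 0 := by rw [e1, e2, sub_zero]
    rw [← h, two_smul]
    abel
  have e5 := hx _ _ ((smul_eq_zero.1 e3).resolve_left two_ne_zero)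
  have e6 := hy _ _ ((smul_eq_zero.1 e4).resolve_left two_ne_zero)
  intro i
  fin_cases i
  · exact e5.1
  · exact e6.1
  · exact e5.2
  · exact e6.2

end Pool.Agent.Lib.MP_7ab245_nt.Solv
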