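import Pool.Agent.Lib.MP_7ab245_nt.Solv.GA.Lin

/-! # SOLVP-NonGlob: q = 2, the signs of `N` are not constant on the orbit

PROOF. `L := lineStab ρ w ≥ N`. `N` is normal: `x n x⁻¹ n⁻¹ ∈ N`. All vectors `ρ x w` are nonzero, so for `n ∈ N` exactly one of
`ρ n (ρ x w) = ρ x w`, `ρ n (ρ x w) = -ρ x w` holds; write `e x n = ± 1` for the sign (or use the proposition
`ρ n (ρ x w) = ρ x w`). (a) `e (x y) n = e y (x⁻¹ n x)` (`ρ n ρ x ρ y w = ρ x ρ (x⁻¹ n x) ρ y w`). (b) `e x = e y` on `N` iff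
`x⁻¹ y ∈ V₀ := {z | ∀ n ∈ N, e z n = e 1 n}`: with `z = x⁻¹ y`, `e y n = e (x z) n = e z (x⁻¹ n x)` and
`e x n = e 1 (x⁻¹ n x)`, and `n ↦ x⁻¹ n x` is a bijection of `N`. So `V₀` is a subgroup, and `L ≤ V₀` (`ρ z w = ± w`).
(c) `¬ Glob` gives `u ∉ V₀`.
Case 1: there is `v ∈ V₀`, `v ∉ L`. Let `n ∈ N` with `e u n ≠ e 1 n`. Then `e v n = e 1 n` and
`e (u v) n = e v (u⁻¹ n u) = e 1 (u⁻¹ n u) = e u n`. `li_pair` gives `w, ρ v w` independent, and applying the injective map
`ρ u` also `ρ u w, ρ (u v) w`. `li_22` with `T = ρ n` or `T = -ρ n`.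
Case 2: `V₀ ≤ L`, so `V₀ = L`. Since `4 < L.index` there is `u ∉ L` and `v ∉ L`, `u⁻¹ v ∉ L` (otherwise `G = L ∪ u L`, index `≤ 2`).
The four elements `1, u, v, u v` are in different cosets `x V₀`: `u v ∈ L` would give (with `u ^ 2 ∈ N ≤ L`, `L` is normal
because `N ≤ L` contains the commutators) `v ∈ u⁻¹ L = u L`, `u⁻¹ v ∈ L`; `v⁻¹ (u v) = u [u⁻¹, v⁻¹] ∈ u N`. So their sign
characters are pairwise different by (b) and `li_of_signs` with `S = {ρ n | n ∈ N}` applies. -/

set_option autoImplicit false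

namespace Pool.Agent.Lib.MP_7ab245_nt.Solv

theorem two_nonglob {G W : Type*} [Group G] [Finite G] [AddCommGroup W] [Module ℚ W]
    {ρ : Representation ℚ G W} {w : W} {N : Subgroup G} (h : EAb ρ w 2 N) (hg : ¬ Glob ρ w N)
    (hidx : 4 < (lineStab ρ w).index) :
    ∃ u v : G, LinearIndependent ℚ ![w, ρ u w, ρ v w, ρ (u * v) w] := by
  classical
  have hNL := h.le_lineStab
  set L := lineStab ρ w with hL
  have hinj : ∀ x : G, Function.Injective (ρ x) := by
    intro x a b hab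
    have h1 := congrArg (ρ x⁻¹) hab
    rw [← Module.End.mul_apply, ← Module.End.mul_apply, ← map_mul, inv_mul_cancel, map_one] at h1
    simpa using h1
  have hne : ∀ x : G, ρ x w ≠ 0 := by
    intro x hx
    apply h.ne
    apply hinj x
    rw [hx, map_zero]
  -- N is normal
  have hNn : ∀ n ∈ N, ∀ x : G, x * n * x⁻¹ ∈ N := by
    intro n hn x
    have h1 := N.mul_mem (h.comm x n) hn
    have h2 : x * n * x⁻¹ * n⁻¹ * n = x * n * x⁻¹ := by group
    rwa [h2] at h1
  have hNn' : ∀ n ∈ N, ∀ x : G, x⁻¹ * n * x ∈ N := by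
    intro n hn x
    have := hNn n hn x⁻¹
    rwa [inv_inv] at this
  set P : G → G → Prop := fun x n => ρ n (ρ x w) = ρ x w with hP
  have hPneg : ∀ n ∈ N, ∀ x, ¬ P x n → ρ n (ρ x w) = -ρ x w := by
    intro n hn x hx
    rcases h.sgn n hn x with h1 | h1
    · exact absurd h1 hx
    · exact h1
  -- (a)
  have ha : ∀ x y n : G, P (x * y) n ↔ P y (x⁻¹ * n * x) := by
    intro x y n
    simp only [hP]
    have h1 : ρ n (ρ (x * y) w) = ρ x (ρ (x⁻¹ * n * x) (ρ y w)) := by
      simp only [← Module.End.mul_apply, ← map_mul]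
      congr 2
      group
    have h2 : ρ (x * y) w = ρ x (ρ y w) := by
      rw [map_mul, Module.End.mul_apply]
    rw [h1, h2]
    exact (hinj x).eq_iff
  have ha1 : ∀ x n : G, P x n ↔ P 1 (x⁻¹ * n * x) := by
    intro x n
    have := ha x 1 n
    rwa [mul_one] at this
  -- L ⊆ V₀
  have hLV : ∀ z ∈ L, ∀ n, P z n ↔ P 1 n := by
    intro z hz n
    simp only [hP]
    rw [map_one, Module.End.one_apply]
    rcases (mem_lineStab ρ w z).mp hz with h1 | h1
    · rw [h1]
    · rw [h1, map_neg, neg_inj]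
  -- (b)
  have hb : ∀ x y : G, (¬ ∀ n ∈ N, (P (x⁻¹ * y) n ↔ P 1 n)) → ∃ n ∈ N, ¬ (P x n ↔ P y n) := by
    intro x y hxy
    push Not at hxy
    obtain ⟨n, hn, hn2⟩ := hxy
    refine ⟨x * n * x⁻¹, hNn n hn x, ?_⟩
    have e1 : x⁻¹ * (x * n * x⁻¹) * x = n := by group
    have h1 := ha x (x⁻¹ * y) (x * n * x⁻¹)
    rw [e1, mul_inv_cancel_left] at h1
    have h2 := ha1 x (x * n * x⁻¹)
    rw [e1] at h2
    rw [h1, h2]
    intro h3
    rcases hn2 with ⟨h4, h5⟩ | ⟨h4, h5⟩
    · exact h5 (h3.mpr h4)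
    · exact h4 (h3.mp h5)
  -- (c)
  have hc : ∃ u : G, ¬ ∀ n ∈ N, (P u n ↔ P 1 n) := by
    unfold Glob at hg
    push Not at hg
    obtain ⟨n, hn, ⟨x1, hx1⟩, ⟨x2, hx2⟩⟩ := hg
    by_contra hcon
    push Not at hcon
    have h1 := hcon x1 n hn
    have h2 := hcon x2 n hn
    have h3 : P x2 n := by
      by_contra h4
      exact hx2 (hPneg n hn x2 h4)
    exact hx1 (h1.mpr (h2.mp h3))
  obtain ⟨u, hu⟩ := hc
  by_cases hV : ∃ v : G, (∀ n ∈ N, (P v n ↔ P 1 n)) ∧ v ∉ L
  · obtain ⟨v, hv, hvL⟩ := hV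
    push Not at hu
    obtain ⟨n, hn, hn2⟩ := hu
    have hvn : P v n ↔ P 1 n := hv n hn
    have huv : P (u * v) n ↔ P u n := by
      rw [ha, ha1 u n]
      exact hv _ (hNn' n hn u)
    have hx : LinearIndependent ℚ ![w, ρ v w] := li_pair ρ h.ne hvL
    have hy : LinearIndependent ℚ ![ρ u w, ρ (u * v) w] := by
      have h1 := hx.map' (ρ u) (LinearMap.ker_eq_bot.mpr (hinj u))
      have h2 : ![ρ u w, ρ (u * v) w] = (ρ u) ∘ ![w, ρ v w] := by
        ext i
        fin_cases i
        · rfl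
        · simp [map_mul, Module.End.mul_apply]
      rw [h2]
      exact h1
    refine ⟨u, v, ?_⟩
    rcases hn2 with ⟨h4, h5⟩ | ⟨h4, h5⟩
    · -- P u n, ¬ P 1 n : T = -ρ n
      have e1 : ρ n w = -w := by
        have := hPneg n hn 1 h5
        simpa using this
      refine li_22 (-(ρ n)) ?_ ?_ ?_ ?_ hx hy
      · rw [LinearMap.neg_apply, e1, neg_neg]
      · rw [LinearMap.neg_apply, hPneg n hn v (fun h6 => h5 (hvn.mp h6)), neg_neg]
      · rw [LinearMap.neg_apply]
        exact congrArg Neg.neg h4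
      · rw [LinearMap.neg_apply]
        exact congrArg Neg.neg (huv.mpr h4)
    · -- ¬ P u n, P 1 n
      refine li_22 (ρ n) ?_ ?_ ?_ ?_ hx hy
      · simpa [hP] using h5
      · exact hvn.mpr h5
      · exact hPneg n hn u h4
      · exact hPneg n hn (u * v) (fun h6 => h4 (huv.mp h6))
  · push Not at hV
    have huL : u ∉ L := fun h1 => hu (fun n _ => hLV u h1 n)
    have hex : ∃ v : G, v ∉ L ∧ u⁻¹ * v ∉ L := by
      by_contra hcon
      push Not at hcon
      have hsurj : Function.Surjective (fun b : Bool => if b then (QuotientGroup.mk u : G ⧸ L) else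
          (QuotientGroup.mk (1 : G) : G ⧸ L)) := by
        intro z
        obtain ⟨g, rfl⟩ := QuotientGroup.mk_surjective z
        by_cases hgL : g ∈ L
        · refine ⟨false, ?_⟩
          simp only [Bool.false_eq_true, if_false]
          rw [QuotientGroup.eq]
          simpa using hgL
        · refine ⟨true, ?_⟩
          simp only [if_true]
          rw [QuotientGroup.eq]
          exact hcon g hgL
      have h1 := Nat.card_le_card_of_surjective _ hsurj
      have h2 : Nat.card Bool = 2 := by simp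
      have h3 : L.index = Nat.card (G ⧸ L) := rfl
      omega
    obtain ⟨v, hvL, huvL⟩ := hex
    refine ⟨u, v, ?_⟩
    set x : Fin 4 → G := ![1, u, v, u * v] with hx
    have hvx : ![w, ρ u w, ρ v w, ρ (u * v) w] = fun i => ρ (x i) w := by
      funext i
      fin_cases i <;> simp [hx]
    rw [hvx]
    have hnotL : ∀ i j : Fin 4, i ≠ j → (x i)⁻¹ * x j ∉ L := by
      have hinv : ∀ g : G, g ∉ L → g⁻¹ ∉ L := fun g hg h1 => hg (by
        have := L.inv_mem h1
        rwa [inv_inv] at this)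
      have h2 : u * v ∉ L := by
        intro h1
        apply huvL
        have h3 : (u ^ 2)⁻¹ ∈ L := L.inv_mem (hNL (h.pow u))
        have h4 := L.mul_mem h3 h1
        have h5 : (u ^ 2)⁻¹ * (u * v) = u⁻¹ * v := by group
        rwa [h5] at h4
      have h3 : v⁻¹ * (u * v) ∉ L := by
        intro h1
        apply huL
        have h4 : u⁻¹ * v⁻¹ * u * v ∈ L := by
          have := hNL (h.comm u⁻¹ v⁻¹)
          simpa using this
        have h5 := L.mul_mem h1 (L.inv_mem h4)
        have h6 : v⁻¹ * (u * v) * (u⁻¹ * v⁻¹ * u * v)⁻¹ = u := by group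
        rwa [h6] at h5
      have h4 : u⁻¹ * (u * v) ∉ L := by
        rwa [inv_mul_cancel_left]
      have hlt : ∀ i j : Fin 4, i < j → (x i)⁻¹ * x j ∉ L := by
        intro i j hij
        fin_cases i <;> fin_cases j
        all_goals first
          | (exfalso; revert hij; decide)
          | skip
        · simpa [hx] using huL
        · simpa [hx] using hvL
        · simpa [hx] using h2
        · simpa [hx] using huvL
        · simpa [hx] using hvL
        · exact h3
      intro i j hij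
      rcases lt_or_gt_of_ne hij with h5 | h5
      · exact hlt i j h5
      · have h6 := hinv _ (hlt j i h5)
        rwa [mul_inv_rev, inv_inv] at h6
    refine li_of_signs _ (fun i => hne (x i)) {T | ∃ n ∈ N, T = ρ n} ?_ ?_
    · rintro T ⟨n, hn, rfl⟩ i
      exact h.sgn n hn (x i)
    · intro i j hij
      have h1 := hnotL i j hij
      have h2 : ¬ ∀ n ∈ N, (P ((x i)⁻¹ * x j) n ↔ P 1 n) := fun h3 => h1 (hV _ h3)
      obtain ⟨n, hn, h3⟩ := hb (x i) (x j) h2
      refine ⟨ρ n, ⟨n, hn, rfl⟩, ?_⟩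
      by_cases h4 : P (x i) n
      · left
        refine ⟨h4, hPneg n hn _ (fun h5 => h3 ⟨fun _ => h5, fun _ => h4⟩)⟩
      · right
        refine ⟨hPneg n hn _ h4, ?_⟩
        by_contra h5
        exact h3 ⟨fun h6 => absurd h6 h4, fun h6 => absurd h6 h5⟩

end Pool.Agent.Lib.MP_7ab245_nt.Solv
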