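import Pool.Agent.Lib.MP_7ab245_nt.Solv.GA.Base

/-! # SOLVP-Orb: the orbit bound

PROOF. `L := lineStab ρ w`, `n := card (orbit of w)`, `V := L.relIndex A`.
(1) `relIndex_le`: `L.relIndex A ≤ L.index ≤ n` (the map `ρ x w ↦ x L` from the orbit to `G ⧸ L` is well defined
because the stabiliser of `w` is contained in `L`, and surjective; `L.relIndex A ≤ L.index`:
`Subgroup.relIndex_le_index` or similar, `L.index ≠ 0` because `G` is finite).
(2) `orbit_bound`. Step a: the tuple `(x L, (x a_i L)_i)` takes at most `L.index * V ^ j` values, `x ∈ G`: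
put `c = x L`, `x = out c * h` with `h ∈ L`; then `x a_i L = out c * (h a_i h⁻¹) L` and `h a_i h⁻¹ ∈ A`
(normality), so `(out c)⁻¹ • (x a_i L)` lies in the set `{a L | a ∈ A} ⊆ G ⧸ L` which has `L.relIndex A`
elements. Step b: if `x, x' ∈ G` have the same tuple then `x g L = x' g L` for every `g` in the closure of the
`a_i`: `x' = x h` with `h ∈ L` and `h a_i h⁻¹ L = a_i L`. The set `{u ∈ A | u⁻¹ * (h * u * h⁻¹) ∈ L}` is a
subgroup: for `u, v` in it, `h (u v) h⁻¹ = (h u h⁻¹)(h v h⁻¹) = u s v t` with `s, t ∈ A ∩ L`, and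
`s v = v (v⁻¹ s v)`, `v⁻¹ s v ∈ L` because `v⁻¹ s v s⁻¹ ∈ L` by `hc` (so `A ∩ L` is normal in `A`). So it contains the
closure, and `x' u L = x h u h⁻¹ h L = x (h u h⁻¹) L = x u L`. Step c: given `(x g_i L)_i` there are at most `2 ^ r`
possibilities for `(ρ (x g_i) w)_i`: `ρ (x g_i) w = ± ρ (out (x g_i L)) w`. -/

set_option autoImplicit false

namespace Pool.Agent.Lib.MP_7ab245_nt.Solv

private theorem orb_inv {G W : Type*} [Group G] [AddCommGroup W] [Module ℚ W]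
    (ρ : Representation ℚ G W) (x y : G) (w : W) : ρ (x⁻¹ * y) w = ρ x⁻¹ (ρ y w) := by
  rw [map_mul, Module.End.mul_apply]

private theorem orb_cancel {G W : Type*} [Group G] [AddCommGroup W] [Module ℚ W]
    (ρ : Representation ℚ G W) (x : G) (w : W) : ρ x⁻¹ (ρ x w) = w := by
  rw [← Module.End.mul_apply, ← map_mul, inv_mul_cancel, map_one, Module.End.one_apply]

private theorem orb_index_le {G W : Type*} [Group G] [Finite G] [AddCommGroup W] [Module ℚ W]
    (ρ : Representation ℚ G W) (w : W) :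
    Nat.card (G ⧸ lineStab ρ w) ≤ Nat.card (Set.range fun x : G => ρ x w) := by
  let f : G ⧸ lineStab ρ w → Set.range fun x : G => ρ x w :=
    fun c => ⟨ρ (Quotient.out c) w, ⟨Quotient.out c, rfl⟩⟩
  refine Nat.card_le_card_of_injective f ?_
  intro c d h
  have h1 : ρ (Quotient.out c) w = ρ (Quotient.out d) w := congrArg Subtype.val h
  have h2 : (Quotient.out c)⁻¹ * Quotient.out d ∈ lineStab ρ w := by
    rw [mem_lineStab]
    left
    rw [orb_inv, ← h1, orb_cancel]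
  have h3 : ((Quotient.out c : G) : G ⧸ lineStab ρ w) = ((Quotient.out d : G) : G ⧸ lineStab ρ w) :=
    QuotientGroup.eq.2 h2
  rwa [QuotientGroup.out_eq', QuotientGroup.out_eq'] at h3

theorem relIndex_le {G W : Type*} [Group G] [Finite G] [AddCommGroup W] [Module ℚ W]
    (ρ : Representation ℚ G W) (w : W) (A : Subgroup G) :
    (lineStab ρ w).relIndex A ≤ Nat.card (Set.range fun x : G => ρ x w) := by
  refine le_trans ?_ (orb_index_le ρ w)
  have h1 : (lineStab ρ w).relIndex ⊤ = Nat.card (G ⧸ lineStab ρ w) := by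
    rw [Subgroup.relIndex_top_right]
    rfl
  rw [← h1]
  refine Subgroup.relIndex_le_of_le_right le_top ?_
  rw [h1]
  exact Nat.card_pos.ne'

/-- the cosets of elements of `A` -/
private def orbS {G : Type*} [Group G] (L A : Subgroup G) : Set (G ⧸ L) :=
  {c | ∃ a ∈ A, ((a : G) : G ⧸ L) = c}

private theorem orbS_card {G : Type*} [Group G] [Finite G] (L A : Subgroup G) :
    Nat.card (orbS L A) ≤ L.relIndex A := by
  classical
  have h0 : L.relIndex A = Nat.card (A ⧸ L.subgroupOf A) := rfl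
  rw [h0]
  choose f hf1 hf2 using (fun c : orbS L A => c.2)
  refine Nat.card_le_card_of_injective
    (fun c : orbS L A => ((⟨f c, hf1 c⟩ : A) : A ⧸ L.subgroupOf A)) ?_
  intro c d h
  have h1 := QuotientGroup.eq.1 h
  rw [Subgroup.mem_subgroupOf] at h1
  have h2 : ((f c : G) : G ⧸ L) = ((f d : G) : G ⧸ L) := QuotientGroup.eq.2 h1
  apply Subtype.ext
  rw [← hf2 c, ← hf2 d]
  exact h2

private theorem orb_closure {G : Type*} [Group G] (L A : Subgroup G)
    (hc : ∀ a ∈ A, ∀ b ∈ A, a * b * a⁻¹ * b⁻¹ ∈ L) [A.Normal] {j : ℕ} (a : Fin j → G)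
    (ha : ∀ i, a i ∈ A) (h : G) (hh : ∀ i, (a i)⁻¹ * (h * a i * h⁻¹) ∈ L) (u : G)
    (hu : u ∈ Subgroup.closure (Set.range a)) : u ∈ A ∧ u⁻¹ * (h * u * h⁻¹) ∈ L := by
  have hn : ∀ v ∈ A, ∀ s ∈ A, s ∈ L → v * s * v⁻¹ ∈ L := by
    intro v hv s hs hsL
    have h1 := L.mul_mem (hc v hv s hs) hsL
    rwa [inv_mul_cancel_right] at h1
  have hA : ∀ v ∈ A, v⁻¹ * (h * v * h⁻¹) ∈ A := fun v hv =>
    A.mul_mem (A.inv_mem hv) (Subgroup.Normal.conj_mem inferInstance v hv h)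
  induction hu using Subgroup.closure_induction with
  | mem x hx =>
    obtain ⟨i, rfl⟩ := hx
    exact ⟨ha i, hh i⟩
  | one =>
    refine ⟨A.one_mem, ?_⟩
    have : (1 : G)⁻¹ * (h * 1 * h⁻¹) = 1 := by group
    rw [this]
    exact L.one_mem
  | mul u v _ _ hu hv =>
    refine ⟨A.mul_mem hu.1 hv.1, ?_⟩
    have h1 := hn v⁻¹ (A.inv_mem hv.1) _ (hA u hu.1) hu.2
    have h2 := L.mul_mem h1 hv.2
    have h3 : v⁻¹ * (u⁻¹ * (h * u * h⁻¹)) * v⁻¹⁻¹ * (v⁻¹ * (h * v * h⁻¹)) =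
        (u * v)⁻¹ * (h * (u * v) * h⁻¹) := by group
    rwa [h3] at h2
  | inv u _ hu =>
    refine ⟨A.inv_mem hu.1, ?_⟩
    have h1 := hn u hu.1 _ (A.inv_mem (hA u hu.1)) (L.inv_mem hu.2)
    have h3 : u * (u⁻¹ * (h * u * h⁻¹))⁻¹ * u⁻¹ = u⁻¹⁻¹ * (h * u⁻¹ * h⁻¹) := by group
    rwa [h3] at h1

theorem orbit_bound {G W : Type*} [Group G] [Finite G] [AddCommGroup W] [Module ℚ W]
    (ρ : Representation ℚ G W) (w : W) (A : Subgroup G) [A.Normal]
    (hc : ∀ a ∈ A, ∀ b ∈ A, a * b * a⁻¹ * b⁻¹ ∈ lineStab ρ w) {j r : ℕ} (a : Fin j → G)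
    (ha : ∀ i, a i ∈ A) (g : Fin r → G) (hg : ∀ i, g i ∈ Subgroup.closure (Set.range a)) :
    Nat.card (Set.range fun x : G => fun i => ρ (x * g i) w) ≤
      2 ^ r * (Nat.card (Set.range fun x : G => ρ x w) * ((lineStab ρ w).relIndex A) ^ j) := by
  classical
  set L := lineStab ρ w with hL
  have hout : ∀ x : G, (Quotient.out (x : G ⧸ L))⁻¹ * x ∈ L := by
    intro x
    rw [← QuotientGroup.eq, QuotientGroup.out_eq']
  -- signs
  have hsign : ∀ y : G, ρ y w = ρ (Quotient.out (y : G ⧸ L)) w ∨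
      ρ y w = -ρ (Quotient.out (y : G ⧸ L)) w := by
    intro y
    have h1 := hout y
    rw [hL, mem_lineStab] at h1
    have h2 : ρ y w = ρ (Quotient.out (y : G ⧸ L)) (ρ ((Quotient.out (y : G ⧸ L))⁻¹ * y) w) := by
      rw [← Module.End.mul_apply, ← map_mul, mul_inv_cancel_left]
    rcases h1 with h1 | h1
    · left
      rw [h2, h1]
    · right
      rw [h2, h1, map_neg]
  choose X hX using (fun f : (Set.range fun x : G => fun i => ρ (x * g i) w) => f.2)
  have hS : ∀ (x : G) (i : Fin j),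
      ((((Quotient.out (x : G ⧸ L))⁻¹ * x) * a i * ((Quotient.out (x : G ⧸ L))⁻¹ * x)⁻¹ : G) :
        G ⧸ L) ∈ orbS L A :=
    fun x i => ⟨_, Subgroup.Normal.conj_mem inferInstance (a i) (ha i) _, rfl⟩
  let Φ : (Set.range fun x : G => fun i => ρ (x * g i) w) →
      (Fin r → Bool) × ((G ⧸ L) × (Fin j → orbS L A)) := fun f =>
    (fun i => decide (ρ (X f * g i) w = ρ (Quotient.out ((X f * g i : G) : G ⧸ L)) w),
      ((X f : G ⧸ L), fun i => ⟨_, hS (X f) i⟩))
  have hinj : Function.Injective Φ := by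
    intro f f' hff
    have h1 := congrArg Prod.fst hff
    have h2 : ((X f : G) : G ⧸ L) = ((X f' : G) : G ⧸ L) := congrArg (fun p => p.2.1) hff
    have h3 : ∀ i, ((((Quotient.out ((X f : G) : G ⧸ L))⁻¹ * X f) * a i *
        ((Quotient.out ((X f : G) : G ⧸ L))⁻¹ * X f)⁻¹ : G) : G ⧸ L) =
        ((((Quotient.out ((X f' : G) : G ⧸ L))⁻¹ * X f') * a i *
        ((Quotient.out ((X f' : G) : G ⧸ L))⁻¹ * X f')⁻¹ : G) : G ⧸ L) := by
      intro i
      have h4 := congrArg (fun p => p.2.2 i) hff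
      exact congrArg Subtype.val h4
    have ho := hout (X f)
    have ho' := hout (X f')
    rw [← h2] at h3 ho'
    set c := Quotient.out ((X f : G) : G ⧸ L) with hcdef
    set x := X f with hx
    set x' := X f' with hx'
    -- `h = x⁻¹ x'`
    have hhL : x⁻¹ * x' ∈ L := QuotientGroup.eq.1 h2
    have hai : ∀ i, (a i)⁻¹ * ((x⁻¹ * x') * a i * (x⁻¹ * x')⁻¹) ∈ L := by
      intro i
      have h5 := QuotientGroup.eq.1 (h3 i)
      have h6 := L.mul_mem (L.mul_mem (L.mul_mem (L.inv_mem ho) h5) ho') (L.inv_mem hhL)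
      have h7 : (c⁻¹ * x)⁻¹ * ((c⁻¹ * x * a i * (c⁻¹ * x)⁻¹)⁻¹ *
          (c⁻¹ * x' * a i * (c⁻¹ * x')⁻¹)) * (c⁻¹ * x') * (x⁻¹ * x')⁻¹ =
          (a i)⁻¹ * ((x⁻¹ * x') * a i * (x⁻¹ * x')⁻¹) := by group
      rwa [h7] at h6
    have hgi : ∀ i, ((x * g i : G) : G ⧸ L) = ((x' * g i : G) : G ⧸ L) := by
      intro i
      have h5 := (orb_closure L A hc a ha (x⁻¹ * x') hai (g i) (hg i)).2
      have h6 := L.mul_mem h5 hhL
      rw [QuotientGroup.eq]
      have h7 : (g i)⁻¹ * (x⁻¹ * x' * g i * (x⁻¹ * x')⁻¹) * (x⁻¹ * x') =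
          (x * g i)⁻¹ * (x' * g i) := by group
      rwa [h7] at h6
    apply Subtype.ext
    rw [← hX f, ← hX f']
    funext i
    change ρ (x * g i) w = ρ (x' * g i) w
    have h8 : decide (ρ (x * g i) w = ρ (Quotient.out ((x * g i : G) : G ⧸ L)) w) =
        decide (ρ (x' * g i) w = ρ (Quotient.out ((x' * g i : G) : G ⧸ L)) w) := congrFun h1 i
    rw [decide_eq_decide, ← hgi i] at h8
    have h9 := hsign (x * g i)
    have h10 := hsign (x' * g i)
    rw [← hgi i] at h10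
    by_cases hp : ρ (x * g i) w = ρ (Quotient.out ((x * g i : G) : G ⧸ L)) w
    · rw [hp, h8.1 hp]
    · have hp' : ¬ ρ (x' * g i) w = ρ (Quotient.out ((x * g i : G) : G ⧸ L)) w :=
        fun h => hp (h8.2 h)
      rw [h9.resolve_left hp, h10.resolve_left hp']
  have hcard := Nat.card_le_card_of_injective Φ hinj
  rw [Nat.card_prod, Nat.card_prod, Nat.card_fun, Nat.card_fun, Nat.card_fin, Nat.card_fin,
    Nat.card_eq_fintype_card (α := Bool), Fintype.card_bool] at hcard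
  refine hcard.trans (Nat.mul_le_mul_left _ (Nat.mul_le_mul (orb_index_le ρ w)
    (Nat.pow_le_pow_left (orbS_card L A) j)))

end Pool.Agent.Lib.MP_7ab245_nt.Solv
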